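import Pool.Agent.CollK.Basic

/-!
Module B: averaging over a minimal right ideal and the canonical vector.
-/

set_option maxSynthPendingDepth 3
set_option linter.unusedSectionVars false

namespace Pool.Agent.CollK

open Classical

variable {X : Type*} [Fintype X]

lemma range_pre {E : Set (X → X)} {w u : X → X} (hw : IsMin E w) (hu : Gen E u) :
    Set.range (w ∘ u) = Set.range w := by
  refine Set.eq_of_subset_of_ncard_le (Set.range_comp_subset_range u w) ?_ (Set.toFinite _)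
  have h4 := (isMin_pre hw hu).2
  have h5 := hw.2
  unfold rk at h4 h5
  rw [h4, h5]

/-- A minimal right ideal. -/
noncomputable def RI (E : Set (X → X)) (w0 : X → X) : Finset (X → X) :=
  (Set.toFinite {w : X → X | ∃ u, Gen E u ∧ w = u ∘ w0}).toFinset

lemma mem_RI {E : Set (X → X)} {w0 w : X → X} :
    w ∈ RI E w0 ↔ ∃ u, Gen E u ∧ w = u ∘ w0 := by
  simp [RI]

lemma self_mem_RI (E : Set (X → X)) (w0 : X → X) : w0 ∈ RI E w0 :=
  mem_RI.2 ⟨id, Gen.one, rfl⟩

lemma card_RI_pos (E : Set (X → X)) (w0 : X → X) : 0 < (RI E w0).card :=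
  Finset.card_pos.2 ⟨w0, self_mem_RI E w0⟩

lemma isMin_of_mem_RI {E : Set (X → X)} {w0 w : X → X} (h0 : IsMin E w0)
    (hw : w ∈ RI E w0) : IsMin E w := by
  obtain ⟨u, hu, rfl⟩ := mem_RI.1 hw
  exact isMin_post h0 hu

lemma post_mem_RI {E : Set (X → X)} {w0 w u : X → X} (hw : w ∈ RI E w0) (hu : Gen E u) :
    u ∘ w ∈ RI E w0 := by
  obtain ⟨u', hu', rfl⟩ := mem_RI.1 hw
  exact mem_RI.2 ⟨u ∘ u', gen_comp hu' hu, rfl⟩

/-- Right multiplication by an element of the right ideal permutes it. -/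
lemma image_RI {E : Set (X → X)} {w0 s : X → X} (h0 : IsMin E w0) (hs : s ∈ RI E w0) :
    Set.InjOn (fun w => w ∘ s) (RI E w0 : Set (X → X)) ∧
      (RI E w0).image (fun w => w ∘ s) = RI E w0 := by
  have hsm := isMin_of_mem_RI h0 hs
  have hinj : Set.InjOn (fun w => w ∘ s) (RI E w0 : Set (X → X)) := by
    intro w hw w' hw' h
    obtain ⟨u, hu, rfl⟩ := mem_RI.1 hw
    obtain ⟨u', hu', rfl⟩ := mem_RI.1 hw'
    have h1 : Set.range (w0 ∘ s) = Set.range w0 := range_pre h0 hsm.1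
    funext x
    have h2 : w0 x ∈ Set.range (w0 ∘ s) := by rw [h1]; exact ⟨x, rfl⟩
    obtain ⟨z, hz⟩ := h2
    have h3 := congrFun h z
    simp only [Function.comp] at h3 hz ⊢
    rwa [hz] at h3
  refine ⟨hinj, ?_⟩
  refine Finset.eq_of_subset_of_card_le ?_ ?_
  · intro w hw
    rw [Finset.mem_image] at hw
    obtain ⟨w', hw', rfl⟩ := hw
    obtain ⟨u, hu, rfl⟩ := mem_RI.1 hs
    obtain ⟨u', hu', rfl⟩ := mem_RI.1 hw'
    exact mem_RI.2 ⟨(u' ∘ w0) ∘ u, gen_comp hu (gen_comp h0.1 hu'), rfl⟩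
  · rw [Finset.card_image_of_injOn hinj]

/-- Every recurrent point is fixed by an element of the right ideal. -/
lemma exists_fix {E : Set (X → X)} {w0 : X → X} (h0 : IsMin E w0) {x : X} (hx : x ∈ Rec E) :
    ∃ s ∈ RI E w0, s x = x := by
  obtain ⟨w, hw, hxw⟩ := hx
  have hu : w ∘ w0 ∈ RI E w0 := mem_RI.2 ⟨w, hw.1, rfl⟩
  have hum := isMin_of_mem_RI h0 hu
  have hx' : x ∈ Set.range (w ∘ w0) := by rw [range_pre hw h0.1]; exact hxw
  obtain ⟨s, hs, hsx⟩ := exists_return hum hum.1 hx'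
  exact ⟨s ∘ (w ∘ w0), post_mem_RI hu hs, hsx⟩

/-- The averaging operator. -/
noncomputable def Avg (E : Set (X → X)) (w0 : X → X) : (X → ℝ) →ₗ[ℝ] (X → ℝ) :=
  ((RI E w0).card : ℝ)⁻¹ • ∑ w ∈ RI E w0, push w

lemma Avg_apply (E : Set (X → X)) (w0 : X → X) (v : X → ℝ) (y : X) :
    Avg E w0 v y = ((RI E w0).card : ℝ)⁻¹ * ∑ w ∈ RI E w0, push w v y := by
  simp [Avg, LinearMap.sum_apply, Finset.sum_apply]

lemma Avg_sub_mem {E : Set (X → X)} {w0 : X → X} (h0 : IsMin E w0) (v : X → ℝ) :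
    Avg E w0 v - v ∈ W E v := by
  have hc : ((RI E w0).card : ℝ) ≠ 0 := by
    have := card_RI_pos E w0
    positivity
  have h : Avg E w0 v - v = ((RI E w0).card : ℝ)⁻¹ • ∑ w ∈ RI E w0, (push w v - v) := by
    rw [Finset.sum_sub_distrib, Finset.sum_const, smul_sub, ← Nat.cast_smul_eq_nsmul ℝ, smul_smul,
      inv_mul_cancel₀ hc, one_smul]
    simp [Avg, LinearMap.sum_apply]
  rw [h]
  refine Submodule.smul_mem _ _ (Submodule.sum_mem _ fun w hw => ?_)
  exact mem_W_of_gen v (isMin_of_mem_RI h0 hw).1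

lemma Avg_off_rec {E : Set (X → X)} {w0 : X → X} (h0 : IsMin E w0) (v : X → ℝ) (x : X)
    (hx : x ∉ Rec E) : Avg E w0 v x = 0 := by
  rw [Avg_apply, Finset.sum_eq_zero, mul_zero]
  intro w hw
  exact push_supp (A := Set.univ) (B := Rec E)
    (fun y _ => range_subset_rec (isMin_of_mem_RI h0 hw) ⟨y, rfl⟩)
    (fun y hy => absurd (Set.mem_univ y) hy) x hx

lemma Avg_nonneg {E : Set (X → X)} {w0 : X → X} (v : X → ℝ) (hv : ∀ x, 0 ≤ v x) (x : X) :
    0 ≤ Avg E w0 v x := by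
  rw [Avg_apply]
  exact mul_nonneg (by positivity) (Finset.sum_nonneg fun w _ => push_nonneg hv x)

lemma Avg_pos {E : Set (X → X)} {w0 : X → X} (h0 : IsMin E w0) (v : X → ℝ)
    (hv : ∀ x, 0 ≤ v x) (x : X) (hx : x ∈ Rec E) (hvx : 0 < v x) : 0 < Avg E w0 v x := by
  rw [Avg_apply]
  have hc : (0 : ℝ) < ((RI E w0).card : ℝ) := by exact_mod_cast card_RI_pos E w0
  refine mul_pos (inv_pos.2 hc) ?_
  obtain ⟨s, hs, hsx⟩ := exists_fix h0 hx
  refine Finset.sum_pos' (fun w _ => push_nonneg hv x) ⟨s, hs, ?_⟩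
  have := push_pos (u := s) hv hvx
  rwa [hsx] at this

lemma Avg_supp {E : Set (X → X)} {w0 : X → X} (h0 : IsMin E w0) (A : Set X) (v : X → ℝ)
    (hA : Closed E A) (hv : ∀ x ∉ A, v x = 0) (x : X) (hx : x ∉ A) : Avg E w0 v x = 0 := by
  rw [Avg_apply, Finset.sum_eq_zero, mul_zero]
  intro w hw
  exact push_supp (fun y hy => gen_closed hA (isMin_of_mem_RI h0 hw).1 hy) hv x hx

/-- Averaging operator. -/
theorem exists_avg (E : Set (X → X)) : ∃ P : (X → ℝ) →ₗ[ℝ] (X → ℝ),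
    (∀ v, P v - v ∈ W E v) ∧
    (∀ v x, x ∉ Rec E → P v x = 0) ∧
    (∀ v, (∀ x, 0 ≤ v x) → ∀ x, 0 ≤ P v x) ∧
    (∀ v, (∀ x, 0 ≤ v x) → ∀ x ∈ Rec E, 0 < v x → 0 < P v x) ∧
    (∀ (A : Set X) (v : X → ℝ), Closed E A → (∀ x ∉ A, v x = 0) → ∀ x ∉ A, P v x = 0) := by
  obtain ⟨w0, h0⟩ := exists_isMin E
  exact ⟨Avg E w0, Avg_sub_mem h0, Avg_off_rec h0, Avg_nonneg, Avg_pos h0, Avg_supp h0⟩

/-! ### The canonical vector -/

/-- The number of elements of the right ideal mapping `x` to `y`. -/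
noncomputable def NN (E : Set (X → X)) (w0 : X → X) (x y : X) : ℕ :=
  ((RI E w0).filter (fun w => w x = y)).card

/-- `x` can be mapped to `y` by the right ideal. -/
def BB (E : Set (X → X)) (w0 : X → X) (y x : X) : Prop := ∃ w ∈ RI E w0, w x = y

lemma NN_pos_iff {E : Set (X → X)} {w0 : X → X} {x y : X} : 0 < NN E w0 x y ↔ BB E w0 y x := by
  unfold NN BB
  rw [Finset.card_pos]
  constructor
  · rintro ⟨w, hw⟩
    rw [Finset.mem_filter] at hw
    exact ⟨w, hw.1, hw.2⟩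
  · rintro ⟨w, hw, h⟩
    exact ⟨w, Finset.mem_filter.2 ⟨hw, h⟩⟩

lemma NN_absorb {E : Set (X → X)} {w0 s : X → X} (h0 : IsMin E w0) (hs : s ∈ RI E w0) (x y : X) :
    NN E w0 (s x) y = NN E w0 x y := by
  obtain ⟨hinj, himg⟩ := image_RI h0 hs
  unfold NN
  have h : ((RI E w0).filter (fun w => w x = y)) =
      ((RI E w0).filter (fun w => w (s x) = y)).image (fun w => w ∘ s) := by
    ext w
    simp only [Finset.mem_filter, Finset.mem_image]
    constructor
    · rintro ⟨hw, hwx⟩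
      rw [← himg, Finset.mem_image] at hw
      obtain ⟨w', hw', rfl⟩ := hw
      exact ⟨w', ⟨hw', hwx⟩, rfl⟩
    · rintro ⟨w', ⟨hw', hwx⟩, rfl⟩
      refine ⟨?_, hwx⟩
      rw [← himg]
      exact Finset.mem_image_of_mem _ hw'
  rw [h, Finset.card_image_of_injOn]
  exact hinj.mono (by
    intro w hw
    rw [Finset.mem_coe, Finset.mem_filter] at hw
    exact hw.1)

lemma NN_of_BB {E : Set (X → X)} {w0 : X → X} (h0 : IsMin E w0) {x y : X}
    (h : BB E w0 y x) : NN E w0 x y = NN E w0 y y := by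
  obtain ⟨w, hw, rfl⟩ := h
  exact (NN_absorb h0 hw x (w x)).symm

/-- Mass of `v` on the points mapped to `y`. -/
noncomputable def cc (E : Set (X → X)) (w0 : X → X) (v : X → ℝ) (y : X) : ℝ :=
  ∑ x, if BB E w0 y x then v x else 0

lemma Avg_eq {E : Set (X → X)} {w0 : X → X} (h0 : IsMin E w0) (v : X → ℝ) (y : X) :
    Avg E w0 v y = cc E w0 v y * ((NN E w0 y y : ℝ) * ((RI E w0).card : ℝ)⁻¹) := by
  rw [Avg_apply]
  have h1 : ∑ w ∈ RI E w0, push w v y = ∑ x, v x * (NN E w0 x y : ℝ) := by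
    simp only [push_apply]
    rw [Finset.sum_comm]
    refine Finset.sum_congr rfl fun x _ => ?_
    rw [← Finset.sum_filter, Finset.sum_const, nsmul_eq_mul, mul_comm]
    rfl
  have h2 : ∑ x, v x * (NN E w0 x y : ℝ) = cc E w0 v y * (NN E w0 y y : ℝ) := by
    unfold cc
    rw [Finset.sum_mul]
    refine Finset.sum_congr rfl fun x _ => ?_
    by_cases h : BB E w0 y x
    · rw [if_pos h, NN_of_BB h0 h]
    · have : NN E w0 x y = 0 := by
        by_contra hne
        exact h (NN_pos_iff.1 (Nat.pos_of_ne_zero hne))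
      rw [if_neg h, this]
      simp
  rw [h1, h2]
  ring

lemma BB_absorb {E : Set (X → X)} {w0 s : X → X} (h0 : IsMin E w0) (hs : s ∈ RI E w0) (x y : X) :
    BB E w0 y (s x) ↔ BB E w0 y x := by
  rw [← NN_pos_iff, ← NN_pos_iff, NN_absorb h0 hs]

/-- The normalised masses. -/
noncomputable def c0 (E : Set (X → X)) (w0 : X → X) (y : X) : ℝ :=
  ∑ z, if BB E w0 y z then (if z ∈ Set.range w0 then (1 : ℝ) else 0) else 0

lemma cc_of_norm {E : Set (X → X)} {w0 : X → X} (h0 : IsMin E w0) {v : X → ℝ}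
    (hv : Norm E v) (y : X) : cc E w0 v y = c0 E w0 y := by
  unfold cc c0
  have h1 : ∀ z, (if z ∈ Set.range w0 then (1 : ℝ) else 0) = push w0 v z := by
    intro z
    by_cases hz : z ∈ Set.range w0
    · rw [if_pos hz, hv w0 h0 z hz]
    · rw [if_neg hz]
      exact (push_supp (A := Set.univ) (B := Set.range w0) (fun y _ => ⟨y, rfl⟩)
        (fun y hy => absurd (Set.mem_univ y) hy) z hz).symm
  simp_rw [h1, push_apply]
  have h2 : ∀ z, (if BB E w0 y z then (∑ x, if w0 x = z then v x else 0) else 0) =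
      ∑ x, (if w0 x = z then (if BB E w0 y z then v x else 0) else 0) := by
    intro z
    by_cases h : BB E w0 y z
    · simp [h]
    · simp [h]
  simp_rw [h2]
  rw [Finset.sum_comm]
  refine Finset.sum_congr rfl fun x _ => ?_
  rw [Finset.sum_eq_single (w0 x)]
  · rw [if_pos rfl]
    have := BB_absorb h0 (self_mem_RI E w0) x y
    by_cases h : BB E w0 y x
    · rw [if_pos h, if_pos (this.2 h)]
    · rw [if_neg h, if_neg (fun h' => h (this.1 h'))]
  · intro z _ hz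
    rw [if_neg (Ne.symm hz)]
  · simp

/-- The canonical vector. -/
noncomputable def Psi (E : Set (X → X)) (w0 : X → X) (y : X) : ℝ :=
  c0 E w0 y * ((NN E w0 y y : ℝ) * ((RI E w0).card : ℝ)⁻¹)

lemma Avg_of_norm {E : Set (X → X)} {w0 : X → X} (h0 : IsMin E w0) {v : X → ℝ}
    (hv : Norm E v) : Avg E w0 v = Psi E w0 := by
  funext y
  rw [Avg_eq h0, cc_of_norm h0 hv]
  rfl

lemma norm_ind {E : Set (X → X)} {w : X → X} (hw : IsMin E w) :
    Norm E (fun x => if x ∈ Set.range w then (1 : ℝ) else 0) := by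
  intro w' hw' y hy
  rw [← isMin_image hw hw'] at hy
  obtain ⟨x, hx, rfl⟩ := hy
  rw [push_apply, Finset.sum_eq_single x]
  · simp only [if_true]
    rw [if_pos hx]
  · intro x' _ hne
    by_cases h : w' x' = w' x
    · rw [if_pos h, if_neg]
      intro hx'
      exact hne (gen_injOn hw hw'.1 hx' hx h)
    · rw [if_neg h]
  · simp

lemma norm_Avg {E : Set (X → X)} {w0 : X → X} (h0 : IsMin E w0) {v : X → ℝ}
    (hv : Norm E v) : Norm E (Avg E w0 v) := by
  intro w hw y hy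
  have hc : ((RI E w0).card : ℝ) ≠ 0 := by
    have := card_RI_pos E w0
    positivity
  have h1 : push w (Avg E w0 v) y = ((RI E w0).card : ℝ)⁻¹ *
      ∑ u ∈ RI E w0, push (w ∘ u) v y := by
    have : Avg E w0 v = ((RI E w0).card : ℝ)⁻¹ • ∑ u ∈ RI E w0, push u v := by
      simp [Avg, LinearMap.sum_apply]
    rw [this, map_smul, map_sum]
    simp [Finset.sum_apply, push_comp]
  rw [h1, Finset.sum_congr rfl (g := fun _ => (1 : ℝ)), Finset.sum_const, nsmul_eq_mul, mul_one,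
    inv_mul_cancel₀ hc]
  intro u hu
  have hu' := (isMin_of_mem_RI h0 hu).1
  exact hv _ (isMin_pre hw hu') y (by rw [range_pre hw hu']; exact hy)

lemma posOn_Psi {E : Set (X → X)} {w0 : X → X} (h0 : IsMin E w0) : PosOn (Rec E) (Psi E w0) := by
  constructor
  · intro x hx
    obtain ⟨w, hw, hxw⟩ := hx
    rw [← Avg_of_norm h0 (norm_ind hw)]
    refine Avg_pos h0 _ (fun z => by split_ifs <;> simp) x ⟨w, hw, hxw⟩ ?_
    rw [if_pos hxw]
    exact one_pos
  · intro x hx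
    rw [← Avg_of_norm h0 (norm_ind h0)]
    exact Avg_off_rec h0 _ x hx

lemma BB_inv {E : Set (X → X)} {w0 u : X → X} (hu : Gen E u) {y : X} (hy : y ∈ Rec E)
    (x : X) : BB E w0 (u y) x ↔ BB E w0 y x := by
  constructor
  · rintro ⟨w, hw, hwx⟩
    obtain ⟨s, hs, hsy⟩ := rec_return hu hy
    refine ⟨s ∘ w, post_mem_RI hw hs, ?_⟩
    rw [Function.comp, hwx, hsy]
  · rintro ⟨w, hw, rfl⟩
    exact ⟨u ∘ w, post_mem_RI hw hu, rfl⟩

/-- Multiplication by a function as a linear map. -/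
noncomputable def mulL (lam : X → ℝ) : (X → ℝ) →ₗ[ℝ] (X → ℝ) where
  toFun z x := lam x * z x
  map_add' a b := by funext x; simp [mul_add]
  map_smul' c a := by funext x; simp [mul_left_comm]

lemma mulL_apply (lam z : X → ℝ) (x : X) : mulL lam z x = lam x * z x := rfl

lemma finrank_Psi_le {E : Set (X → X)} {w0 : X → X} (h0 : IsMin E w0) {v : X → ℝ}
    (hv : PosOn (Rec E) v) :
    Module.finrank ℝ (W E (Psi E w0)) ≤ Module.finrank ℝ (W E v) := by
  set lam : X → ℝ := fun y => if y ∈ Rec E then c0 E w0 y / cc E w0 v y else 1 with hlam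
  have hcv : ∀ y ∈ Rec E, 0 < cc E w0 v y := by
    intro y hy
    obtain ⟨s, hs, hsy⟩ := exists_fix h0 hy
    refine Finset.sum_pos' (fun x _ => by split_ifs <;> simp [hv.nonneg]) ⟨y, by simp, ?_⟩
    rw [if_pos ⟨s, hs, hsy⟩]
    exact hv.1 y hy
  have hpsi : Psi E w0 = mulL lam (Avg E w0 v) := by
    funext y
    rw [mulL_apply]
    by_cases hy : y ∈ Rec E
    · rw [Avg_eq h0, hlam]
      simp only [hy, if_true]
      unfold Psi
      have := (hcv y hy).ne'
      field_simp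
    · rw [Avg_off_rec h0 v y hy, mul_zero]
      exact (posOn_Psi h0).2 y hy
  have hinv : ∀ u, Gen E u → ∀ y ∈ Rec E, lam (u y) = lam y := by
    intro u hu y hy
    simp only [hlam, hy, rec_gen hu hy, if_true]
    unfold c0 cc
    simp_rw [BB_inv hu hy]
  have hcomm : ∀ u, Gen E u → ∀ z : X → ℝ, (∀ x ∉ Rec E, z x = 0) →
      push u (mulL lam z) = mulL lam (push u z) := by
    intro u hu z hz
    funext y
    rw [mulL_apply, push_apply, push_apply, Finset.mul_sum]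
    refine Finset.sum_congr rfl fun x _ => ?_
    by_cases hx : u x = y
    · rw [if_pos hx, if_pos hx, mulL_apply]
      by_cases hxr : x ∈ Rec E
      · rw [← hx, hinv u hu x hxr]
      · rw [hz x hxr, mul_zero, mul_zero]
    · rw [if_neg hx, if_neg hx, mul_zero]
  have hoff : ∀ x ∉ Rec E, Avg E w0 v x = 0 := fun x hx => Avg_off_rec h0 v x hx
  have hW : W E (Psi E w0) ≤ (W E (Avg E w0 v)).map (mulL lam) := by
    refine Submodule.span_le.2 ?_
    rintro z ⟨u, hu, rfl⟩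
    refine ⟨push u (Avg E w0 v) - Avg E w0 v, mem_W_of_gen _ hu, ?_⟩
    rw [map_sub, ← hcomm u hu _ hoff, hpsi]
  calc Module.finrank ℝ (W E (Psi E w0))
      ≤ Module.finrank ℝ ((W E (Avg E w0 v)).map (mulL lam)) := Submodule.finrank_mono hW
    _ ≤ Module.finrank ℝ (W E (Avg E w0 v)) := Submodule.finrank_map_le _ _
    _ ≤ Module.finrank ℝ (W E v) := Submodule.finrank_mono (W_le_of_mem (Avg_sub_mem h0 v))

/-- Existence of the canonical vector. -/
theorem exists_psi (E : Set (X → X)) : ∃ ψ : X → ℝ, IsPsi E ψ := by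
  obtain ⟨w0, h0⟩ := exists_isMin E
  refine ⟨Psi E w0, posOn_Psi h0, ?_, fun v hv => finrank_Psi_le h0 hv, fun v _ hN => ?_⟩
  · rw [← Avg_of_norm h0 (norm_ind h0)]
    exact norm_Avg h0 (norm_ind h0)
  · rw [← Avg_of_norm h0 hN]
    exact Avg_sub_mem h0 v

end Pool.Agent.CollK
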