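import Pool.Agent.CollK.Defs

/-!
Basic lemmas (module A).
-/

set_option maxSynthPendingDepth 3
set_option linter.unusedSectionVars false

namespace Pool.Agent.CollK

open Classical

variable {X : Type*} [Fintype X] {E E' : Set (X → X)} {A B : Set X} {u w w' a : X → X}
  {v v' z : X → ℝ}

lemma gen_comp (hu : Gen E u) (hw : Gen E w) : Gen E (w ∘ u) := by
  induction hw with
  | one => exact hu
  | snoc w a _ ha ih => exact Gen.snoc (w ∘ u) a ih ha

lemma gen_mono (h : E ⊆ E') (hu : Gen E u) : Gen E' u := by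
  induction hu with
  | one => exact Gen.one
  | snoc w a _ ha ih => exact Gen.snoc w a ih (h ha)

lemma gen_of_mem (h : a ∈ E) : Gen E a := Gen.snoc id a Gen.one h

lemma gen_closed (hA : Closed E A) (hu : Gen E u) {x : X} (hx : x ∈ A) : u x ∈ A := by
  induction hu with
  | one => exact hx
  | snoc w a _ ha ih => exact hA a ha _ ih

lemma push_apply (u : X → X) (v : X → ℝ) (y : X) :
    push u v y = ∑ x, if u x = y then v x else 0 := rfl

lemma push_id (v : X → ℝ) : push id v = v := by
  funext y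
  simp [push_apply]

lemma push_comp (u w : X → X) (v : X → ℝ) : push (w ∘ u) v = push w (push u v) := by
  funext y
  simp only [push_apply, Function.comp]
  have h1 : ∀ z : X, (if w z = y then ∑ x, (if u x = z then v x else 0) else 0) =
      ∑ x, (if u x = z then (if w z = y then v x else 0) else 0) := by
    intro z
    by_cases h : w z = y
    · simp [h]
    · simp [h]
  simp_rw [h1]
  rw [Finset.sum_comm]
  exact Finset.sum_congr rfl fun x _ => by simp

lemma push_nonneg (hv : ∀ x, 0 ≤ v x) (y : X) : 0 ≤ push u v y :=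
  Finset.sum_nonneg fun x _ => by split_ifs <;> simp [hv]

lemma le_push (hv : ∀ x, 0 ≤ v x) (x : X) : v x ≤ push u v (u x) := by
  rw [push_apply]
  have := Finset.single_le_sum (f := fun z => if u z = u x then v z else 0)
    (fun z _ => by split_ifs <;> simp [hv]) (Finset.mem_univ x)
  simpa using this

lemma push_pos (hv : ∀ x, 0 ≤ v x) {x : X} (hx : 0 < v x) : 0 < push u v (u x) :=
  lt_of_lt_of_le hx (le_push hv x)

lemma sum_push (u : X → X) (v : X → ℝ) : ∑ y, push u v y = ∑ x, v x := by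
  simp only [push_apply]
  rw [Finset.sum_comm]
  exact Finset.sum_congr rfl fun x _ => by simp

lemma push_supp (h : ∀ x ∈ A, u x ∈ B) (hv : ∀ x ∉ A, v x = 0) : ∀ x ∉ B, push u v x = 0 := by
  intro y hy
  rw [push_apply]
  refine Finset.sum_eq_zero fun x _ => ?_
  by_cases hx : u x = y
  · simp only [hx, if_true]
    refine hv x fun hxA => hy ?_
    rw [← hx]
    exact h x hxA
  · simp [hx]

lemma mem_W_of_gen (v : X → ℝ) (hu : Gen E u) : push u v - v ∈ W E v :=
  Submodule.subset_span ⟨u, hu, rfl⟩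

lemma push_mem_W (hz : z ∈ W E v) (hu : Gen E u) : push u z ∈ W E v := by
  unfold W at hz
  induction hz using Submodule.span_induction with
  | mem z hz =>
    obtain ⟨w, hw, rfl⟩ := hz
    have h1 := mem_W_of_gen v (gen_comp hw hu)
    have h2 := mem_W_of_gen v hu
    rw [push_comp] at h1
    have : push u (push w v - v) = (push u (push w v) - v) - (push u v - v) := by
      rw [map_sub]; abel
    rw [this]
    exact Submodule.sub_mem _ h1 h2
  | zero => simp
  | add x y _ _ hx hy => rw [map_add]; exact Submodule.add_mem _ hx hy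
  | smul c x _ hx => rw [map_smul]; exact Submodule.smul_mem _ _ hx

lemma W_mono (h : E ⊆ E') (v : X → ℝ) : W E v ≤ W E' v := by
  refine Submodule.span_mono ?_
  rintro z ⟨u, hu, rfl⟩
  exact ⟨u, gen_mono h hu, rfl⟩

lemma W_le_of_mem (h : v' - v ∈ W E v) : W E v' ≤ W E v := by
  refine Submodule.span_le.2 ?_
  rintro z ⟨u, hu, rfl⟩
  have h1 := push_mem_W h hu
  have h2 := mem_W_of_gen v hu
  have : push u v' - v' = push u (v' - v) + (push u v - v) - (v' - v) := by
    rw [map_sub]; abel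
  rw [SetLike.mem_coe, this]
  exact Submodule.sub_mem _ (Submodule.add_mem _ h1 h2) h

lemma W_add_le (v v' : X → ℝ) : W E (v + v') ≤ W E v ⊔ W E v' := by
  refine Submodule.span_le.2 ?_
  rintro z ⟨u, hu, rfl⟩
  have : push u (v + v') - (v + v') = (push u v - v) + (push u v' - v') := by
    rw [map_add]; abel
  rw [SetLike.mem_coe, this]
  exact Submodule.add_mem_sup (mem_W_of_gen v hu) (mem_W_of_gen v' hu)

lemma W_supp (hA : Closed E A) (hv : ∀ x ∉ A, v x = 0) :
    ∀ z ∈ W E v, ∀ x ∉ A, z x = 0 := by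
  intro z hz
  unfold W at hz
  induction hz using Submodule.span_induction with
  | mem z hz =>
    obtain ⟨u, hu, rfl⟩ := hz
    intro x hx
    have := push_supp (fun y hy => gen_closed hA hu hy) hv x hx
    simp [this, hv x hx]
  | zero => simp
  | add x y _ _ hx hy => intro t ht; simp [hx t ht, hy t ht]
  | smul c x _ hx => intro t ht; simp [hx t ht]

lemma W_sum : ∀ z ∈ W E v, ∑ x, z x = 0 := by
  intro z hz
  unfold W at hz
  induction hz using Submodule.span_induction with
  | mem z hz =>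
    obtain ⟨u, hu, rfl⟩ := hz
    simp only [Pi.sub_apply, Finset.sum_sub_distrib, sum_push, sub_self]
  | zero => simp
  | add x y _ _ hx hy => simp only [Pi.add_apply, Finset.sum_add_distrib, hx, hy, add_zero]
  | smul c x _ hx => simp only [Pi.smul_apply, smul_eq_mul, ← Finset.mul_sum, hx, mul_zero]

lemma exists_isMin (E : Set (X → X)) : ∃ u, IsMin E u := by
  have : {r | ∃ u, Gen E u ∧ rk u = r}.Nonempty := ⟨rk id, id, Gen.one, rfl⟩
  obtain ⟨u, hu, hr⟩ := Nat.sInf_mem this
  exact ⟨u, hu, hr⟩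

lemma minrk_le (hu : Gen E u) : minrk E ≤ rk u := Nat.sInf_le ⟨u, hu, rfl⟩

lemma minrk_anti (h : E ⊆ E') : minrk E' ≤ minrk E := by
  obtain ⟨u, hu, hr⟩ := exists_isMin E
  rw [← hr]
  exact minrk_le (gen_mono h hu)

lemma rk_comp_le_left (u w : X → X) : rk (w ∘ u) ≤ rk u := by
  unfold rk
  rw [Set.range_comp]
  exact Set.ncard_image_le (Set.toFinite _)

lemma rk_comp_le_right (u w : X → X) : rk (w ∘ u) ≤ rk w :=
  Set.ncard_le_ncard (Set.range_comp_subset_range u w) (Set.toFinite _)

lemma isMin_post (hw : IsMin E w) (hu : Gen E u) : IsMin E (u ∘ w) :=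
  ⟨gen_comp hw.1 hu, le_antisymm (hw.2 ▸ rk_comp_le_left w u) (minrk_le (gen_comp hw.1 hu))⟩

lemma isMin_pre (hw : IsMin E w) (hu : Gen E u) : IsMin E (w ∘ u) :=
  ⟨gen_comp hu hw.1, le_antisymm (hw.2 ▸ rk_comp_le_right u w) (minrk_le (gen_comp hu hw.1))⟩

lemma gen_injOn (hw : IsMin E w) (hu : Gen E u) : Set.InjOn u (Set.range w) := by
  have h := (isMin_post hw hu).2
  have h2 : (u '' Set.range w).ncard = (Set.range w).ncard := by
    have h3 : rk (u ∘ w) = rk w := h.trans hw.2.symm
    unfold rk at h3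
    rwa [Set.range_comp] at h3
  exact Set.injOn_of_ncard_image_eq h2 (Set.toFinite _)

lemma isMin_image (hw : IsMin E w) (hw' : IsMin E w') : w' '' Set.range w = Set.range w' := by
  rw [← Set.range_comp]
  refine Set.eq_of_subset_of_ncard_le (Set.range_comp_subset_range w w') ?_ (Set.toFinite _)
  have h1 := (isMin_pre hw' hw.1).2
  have h2 := hw'.2
  unfold rk at h1 h2
  rw [h1, h2]

lemma rec_gen (hu : Gen E u) {x : X} (hx : x ∈ Rec E) : u x ∈ Rec E := by
  obtain ⟨w, hw, y, rfl⟩ := hx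
  exact ⟨u ∘ w, isMin_post hw hu, y, rfl⟩

lemma rec_closed (E : Set (X → X)) : Closed E (Rec E) := fun _ ha _ hx =>
  rec_gen (gen_of_mem ha) hx

lemma range_subset_rec (hw : IsMin E w) : Set.range w ⊆ Rec E := fun y hy => ⟨w, hw, hy⟩

lemma gen_empty (hu : Gen (∅ : Set (X → X)) u) : u = id := by
  induction hu with
  | one => rfl
  | snoc w a _ ha _ => exact absurd ha (Set.notMem_empty _)

lemma minrk_empty : minrk (∅ : Set (X → X)) = Fintype.card X := by
  obtain ⟨u, hu, hr⟩ := exists_isMin (∅ : Set (X → X))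
  rw [← hr, gen_empty hu]
  unfold rk
  rw [Set.range_id, Set.ncard_univ, Nat.card_eq_fintype_card]

lemma rec_empty : Rec (∅ : Set (X → X)) = Set.univ := by
  obtain ⟨u, hu⟩ := exists_isMin (∅ : Set (X → X))
  refine Set.eq_univ_of_forall fun x => ⟨u, hu, x, ?_⟩
  rw [gen_empty hu.1]
  rfl

/-- A map that maps a minimal image onto itself has a power fixing it pointwise. -/
lemma exists_return (hw : IsMin E w) (hu : Gen E u) {x : X} (hx : x ∈ Set.range w) :
    ∃ s, Gen E s ∧ s (u x) = x := by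
  -- `g = w ∘ u` permutes `range w`
  have hg : Gen E (w ∘ u) := gen_comp hu hw.1
  have hgm : ∀ y ∈ Set.range w, (w ∘ u) y ∈ Set.range w := fun y _ => ⟨u y, rfl⟩
  have hinj : Set.InjOn (w ∘ u) (Set.range w) := gen_injOn hw hg
  -- iterate
  have hit : ∀ n : ℕ, ∀ y ∈ Set.range w, (w ∘ u)^[n] y ∈ Set.range w := by
    intro n
    induction n with
    | zero => intro y hy; exact hy
    | succ n ih => intro y hy; rw [Function.iterate_succ_apply']; exact hgm _ (ih y hy)
  have hinjn : ∀ n : ℕ, Set.InjOn ((w ∘ u)^[n]) (Set.range w) := by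
    intro n
    induction n with
    | zero => intro y _ z _ h; exact h
    | succ n ih =>
      intro y hy z hz h
      rw [Function.iterate_succ_apply', Function.iterate_succ_apply'] at h
      exact ih hy hz (hinj (hit n y hy) (hit n z hz) h)
  have hgen : ∀ n : ℕ, Gen E ((w ∘ u)^[n]) := by
    intro n
    induction n with
    | zero => exact Gen.one
    | succ n ih => rw [Function.iterate_succ']; exact gen_comp ih hg
  obtain ⟨m, n, hmn, heq⟩ := Finite.exists_ne_map_eq_of_infinite (fun n : ℕ => (w ∘ u)^[n] x)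
  wlog hlt : m < n generalizing m n
  · exact this n m (Ne.symm hmn) heq.symm (lt_of_le_of_ne (not_lt.1 hlt) (Ne.symm hmn))
  obtain ⟨d, rfl⟩ := Nat.exists_eq_add_of_lt hlt
  have h1 : (w ∘ u)^[m] ((w ∘ u)^[d + 1] x) = (w ∘ u)^[m] x := by
    rw [← Function.iterate_add_apply]
    exact heq.symm
  have h2 := hinjn m (hit _ x hx) hx h1
  refine ⟨(w ∘ u)^[d] ∘ w, gen_comp hw.1 (hgen d), ?_⟩
  rw [Function.iterate_succ_apply] at h2
  exact h2

lemma rec_return (hu : Gen E u) {x : X} (hx : x ∈ Rec E) : ∃ s, Gen E s ∧ s (u x) = x := by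
  obtain ⟨w, hw, hx⟩ := hx
  exact exists_return hw hu hx

lemma isMin_mono (h : E ⊆ E') (hr : minrk E' = minrk E) (hw : IsMin E w) : IsMin E' w :=
  ⟨gen_mono h hw.1, hw.2.trans hr.symm⟩

lemma rec_mono (h : E ⊆ E') (hr : minrk E' = minrk E) : Rec E ⊆ Rec E' := by
  rintro y ⟨w, hw, hy⟩
  exact ⟨w, isMin_mono h hr hw, hy⟩

lemma exists_posOn (A : Set X) : ∃ v : X → ℝ, PosOn A v :=
  ⟨fun x => if x ∈ A then 1 else 0, fun x hx => by simp [hx], fun x hx => by simp [hx]⟩

lemma beta_le (hv : PosOn A v) : beta E A ≤ Module.finrank ℝ (W E v) :=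
  Nat.sInf_le ⟨v, hv, rfl⟩

lemma exists_beta (E : Set (X → X)) (A : Set X) :
    ∃ v : X → ℝ, PosOn A v ∧ Module.finrank ℝ (W E v) = beta E A := by
  obtain ⟨v, hv⟩ := exists_posOn A
  have : {d | ∃ v : X → ℝ, PosOn A v ∧ d = Module.finrank ℝ (W E v)}.Nonempty := ⟨_, v, hv, rfl⟩
  obtain ⟨v, hv, h⟩ := Nat.sInf_mem this
  exact ⟨v, hv, h.symm⟩

lemma PosOn.nonneg (hv : PosOn A v) (x : X) : 0 ≤ v x := by
  by_cases hx : x ∈ A
  · exact (hv.1 x hx).le
  · exact (hv.2 x hx).ge

end Pool.Agent.CollK
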