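import Pool.Agent.CollK.B

/-!
Module C: the chain inequality.
-/

set_option maxSynthPendingDepth 3
set_option linter.unusedSectionVars false

namespace Pool.Agent.CollK

open Classical

variable {X : Type*} [Fintype X]

/-- Restriction of a vector to a set (zero outside). -/
noncomputable def resC (A : Set X) : (X → ℝ) →ₗ[ℝ] (X → ℝ) where
  toFun v x := if x ∈ A then v x else 0
  map_add' v w := by
    funext x
    by_cases h : x ∈ A <;> simp [h]
  map_smul' c v := by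
    funext x
    by_cases h : x ∈ A <;> simp [h]

lemma resC_apply (A : Set X) (v : X → ℝ) (x : X) : resC A v x = if x ∈ A then v x else 0 := rfl

/-- Vectors supported on `A`. -/
def suppC (A : Set X) : Submodule ℝ (X → ℝ) where
  carrier := {z | ∀ x ∉ A, z x = 0}
  add_mem' := by
    intro a b ha hb x hx
    simp [ha x hx, hb x hx]
  zero_mem' := by
    intro x _
    rfl
  smul_mem' := by
    intro c a ha x hx
    simp [ha x hx]

lemma mem_suppC {A : Set X} {z : X → ℝ} : z ∈ suppC A ↔ ∀ x ∉ A, z x = 0 := Iff.rfl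

/-- Rank-nullity for the restriction to one layer. -/
lemma finrank_layer (V : Submodule ℝ (X → ℝ)) (F F' A : Set X)
    (hsub : F' ⊆ F) (hdisj : ∀ x ∈ A, x ∉ F') :
    Module.finrank ℝ ((V ⊓ suppC F).map (resC A) : Submodule ℝ (X → ℝ)) +
      Module.finrank ℝ (V ⊓ suppC F' : Submodule ℝ (X → ℝ)) ≤
    Module.finrank ℝ (V ⊓ suppC F : Submodule ℝ (X → ℝ)) := by
  have h1 := LinearMap.finrank_range_add_finrank_ker
    ((resC A).domRestrict (V ⊓ suppC F : Submodule ℝ (X → ℝ)))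
  rw [LinearMap.range_domRestrict] at h1
  rw [← h1]
  refine Nat.add_le_add_left ?_ _
  rw [← Submodule.finrank_map_subtype_eq (V ⊓ suppC F)
    (LinearMap.ker ((resC A).domRestrict (V ⊓ suppC F : Submodule ℝ (X → ℝ))))]
  refine Submodule.finrank_mono ?_
  intro z hz
  have hz2 : z ∈ V ⊓ suppC F := ⟨hz.1, fun x hx => hz.2 x fun h => hx (hsub h)⟩
  refine ⟨⟨z, hz2⟩, ?_, rfl⟩
  rw [SetLike.mem_coe, LinearMap.mem_ker]
  funext x
  rw [LinearMap.domRestrict_apply, resC_apply]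
  by_cases hx : x ∈ A
  · simp only [hx, if_true]
    exact hz.2 x (hdisj x hx)
  · simp [hx]

/-- One layer of the chain inequality. -/
lemma layer_bound (E E' : Set (X → X)) (ψ v vs : X → ℝ) (hEE' : E ⊆ E')
    (F F' A Fs : Set X) (hF : Closed E F) (hF' : Closed E F') (hA : Closed E A)
    (hsplit : ∀ x ∈ F, x ∈ A ∨ x ∈ F') (hdisj : ∀ x ∈ A, x ∉ F')
    (hv : v - ψ ∈ W E ψ) (hv0 : ∀ x ∉ F, v x = 0) (hvpos : ∀ x ∈ A, 0 < v x)
    (hvs : vs - ψ ∈ W E' ψ) (hvs0 : ∀ x ∉ Fs, vs x = 0) (hFs : Fs ⊆ F)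
    (c : ℕ) (hc : c = 0 ∨ (c = 1 ∧ (∀ x ∈ A, x ∉ Fs) ∧ ∃ x, x ∈ A)) :
    beta E A + c ≤
      Module.finrank ℝ ((W E' ψ ⊓ suppC F).map (resC A) : Submodule ℝ (X → ℝ)) := by
  have hpos : PosOn A (resC A v) := by
    refine ⟨fun x hx => ?_, fun x hx => ?_⟩
    · rw [resC_apply, if_pos hx]
      exact hvpos x hx
    · rw [resC_apply, if_neg hx]
  have hWv : W E v ≤ W E' ψ := (W_le_of_mem hv).trans (W_mono hEE' ψ)
  have hcomm : ∀ u, Gen E u → resC A (push u v) = push u (resC A v) := by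
    intro u hu
    have hrest : ∀ x ∉ F', (v - resC A v) x = 0 := by
      intro x hx
      rw [Pi.sub_apply, resC_apply]
      by_cases hxA : x ∈ A
      · simp [hxA]
      · rw [if_neg hxA, sub_zero]
        refine hv0 x fun hxF => ?_
        rcases hsplit x hxF with h | h
        · exact hxA h
        · exact hx h
    have h1 := push_supp (fun y hy => gen_closed hF' hu hy) hrest
    have h2 := push_supp (fun y hy => gen_closed hA hu hy) hpos.2
    funext x
    rw [resC_apply]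
    by_cases hx : x ∈ A
    · rw [if_pos hx]
      have h3 := h1 x (hdisj x hx)
      rw [map_sub, Pi.sub_apply] at h3
      linarith
    · rw [if_neg hx]
      exact (h2 x hx).symm
  have hle : W E (resC A v) ≤ (W E' ψ ⊓ suppC F).map (resC A) := by
    refine Submodule.span_le.2 ?_
    rintro z ⟨u, hu, rfl⟩
    refine ⟨push u v - v, ⟨hWv (mem_W_of_gen v hu), ?_⟩, ?_⟩
    · intro x hx
      rw [Pi.sub_apply, push_supp (fun y hy => gen_closed hF hu hy) hv0 x hx, hv0 x hx, sub_zero]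
    · rw [map_sub, hcomm u hu]
  have hb := beta_le (E := E) hpos
  rcases hc with hc | ⟨hc, hc1, x0, hx0⟩
  · have := Submodule.finrank_mono hle
    omega
  · have hmem : resC A v ∈ (W E' ψ ⊓ suppC F).map (resC A) := by
      refine ⟨v - vs, ⟨?_, ?_⟩, ?_⟩
      · have : v - vs = (v - ψ) - (vs - ψ) := by abel
        rw [this]
        exact Submodule.sub_mem _ (W_mono hEE' ψ hv) hvs
      · intro x hx
        rw [Pi.sub_apply, hv0 x hx, hvs0 x (fun h => hx (hFs h)), sub_zero]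
      · funext x
        rw [resC_apply, resC_apply]
        by_cases hx : x ∈ A
        · rw [if_pos hx, if_pos hx, Pi.sub_apply, hvs0 x (hc1 x hx), sub_zero]
        · rw [if_neg hx, if_neg hx]
    have hnot : resC A v ∉ W E (resC A v) := by
      intro h
      have h1 := W_sum _ h
      have h2 : 0 < ∑ x, resC A v x :=
        Finset.sum_pos' (fun x _ => hpos.nonneg x) ⟨x0, Finset.mem_univ _, hpos.1 x0 hx0⟩
      linarith
    have hlt : W E (resC A v) < (W E' ψ ⊓ suppC F).map (resC A) :=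
      lt_of_le_of_ne hle fun h => hnot (h ▸ hmem)
    have := Submodule.finrank_lt_finrank_of_lt hlt
    omega

theorem beta_chain (E : ℕ → Set (X → X)) (s : ℕ) (hmono : ∀ i j, i ≤ j → j ≤ s → E i ⊆ E j)
    (E' : Set (X → X)) (hE : E s ⊆ E') (idx : X → ℕ) (hidx : ∀ x, idx x ≤ s)
    (hrec : ∀ x, x ∈ Rec (E (idx x))) (hmax : ∀ x i, i ≤ s → x ∈ Rec (E i) → i ≤ idx x) :
    ∑ i ∈ Finset.range (s + 1), beta (E i) {x | x ∈ Rec E' ∧ idx x = i} +
      ((Finset.range s).filter (fun i => ∃ x, x ∈ Rec E' ∧ idx x = i)).card ≤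
    beta E' (Rec E') := by
  obtain ⟨ψ, hψ, hψr⟩ := exists_beta E' (Rec E')
  have hEi : ∀ i, i ≤ s → E i ⊆ E' := fun i hi => (hmono i s hi le_rfl).trans hE
  -- closedness of the sets `F j`
  have hFcl : ∀ i j, i ≤ s → i ≤ j → Closed (E i) {x | x ∈ Rec E' ∧ j ≤ idx x} := by
    intro i j hi hij a ha x hx
    obtain ⟨hx1, hx2⟩ := hx
    refine ⟨rec_closed E' a (hEi i hi ha) x hx1, ?_⟩
    have h1 : a ∈ E (idx x) := hmono i (idx x) (hij.trans hx2) (hidx x) ha
    have h2 : a x ∈ Rec (E (idx x)) := rec_closed _ a h1 x (hrec x)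
    exact hx2.trans (hmax _ _ (hidx x) h2)
  have hAcl : ∀ i, i ≤ s → Closed (E i) {x | x ∈ Rec E' ∧ idx x = i} := by
    intro i hi a ha x hx
    obtain ⟨hx1, hx2⟩ := hx
    have h1 : a x ∈ {x | x ∈ Rec E' ∧ i ≤ idx x} := hFcl i i hi le_rfl a ha x ⟨hx1, hx2.ge⟩
    refine ⟨h1.1, ?_⟩
    by_contra hne
    have h2 : a x ∈ {x | x ∈ Rec E' ∧ i + 1 ≤ idx x} :=
      ⟨h1.1, Nat.lt_of_le_of_ne h1.2 (Ne.symm hne)⟩
    have h3 : x ∈ Rec (E i) := hx2 ▸ hrec x
    obtain ⟨t, ht, htx⟩ := rec_return (gen_of_mem ha) h3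
    have h4 := gen_closed (hFcl i (i + 1) hi (Nat.le_succ i)) ht h2
    rw [htx] at h4
    have := h4.2
    omega
  -- the averaged vectors
  choose P hP1 hP2 hP3 hP4 hP5 using fun i => exists_avg (X := X) (E i)
  have hψ0 : ∀ x, 0 ≤ ψ x := hψ.nonneg
  have hv0 : ∀ i, i ≤ s → ∀ x ∉ {x | x ∈ Rec E' ∧ i ≤ idx x}, P i ψ x = 0 := by
    intro i hi x hx
    by_cases hxY : x ∈ Rec E'
    · refine hP2 i ψ x fun h => hx ⟨hxY, hmax x i hi h⟩
    · have hcl : Closed (E i) (Rec E') := fun a ha y hy => rec_closed E' a (hEi i hi ha) y hy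
      exact hP5 i (Rec E') ψ hcl hψ.2 x hxY
  have hvpos : ∀ i, i ≤ s → ∀ x ∈ {x | x ∈ Rec E' ∧ idx x = i}, 0 < P i ψ x := by
    intro i hi x hx
    obtain ⟨hx1, hx2⟩ := hx
    exact hP4 i ψ hψ0 x (hx2 ▸ hrec x) (hψ.1 x hx1)
  -- one step
  have hstep : ∀ i, i ≤ s →
      (beta (E i) {x | x ∈ Rec E' ∧ idx x = i} +
        (if i < s ∧ ∃ x, x ∈ Rec E' ∧ idx x = i then 1 else 0)) +
      Module.finrank ℝ (W E' ψ ⊓ suppC {x | x ∈ Rec E' ∧ i + 1 ≤ idx x} :
        Submodule ℝ (X → ℝ)) ≤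
      Module.finrank ℝ (W E' ψ ⊓ suppC {x | x ∈ Rec E' ∧ i ≤ idx x} :
        Submodule ℝ (X → ℝ)) := by
    intro i hi
    have h1 := finrank_layer (W E' ψ) {x | x ∈ Rec E' ∧ i ≤ idx x}
      {x | x ∈ Rec E' ∧ i + 1 ≤ idx x} {x | x ∈ Rec E' ∧ idx x = i}
      (fun x hx => ⟨hx.1, (Nat.le_succ i).trans hx.2⟩)
      (fun x hx h => by
        have h1 := hx.2
        have h2 := h.2
        omega)
    have h2 := layer_bound (E i) E' ψ (P i ψ) (P s ψ) (hEi i hi)
      {x | x ∈ Rec E' ∧ i ≤ idx x} {x | x ∈ Rec E' ∧ i + 1 ≤ idx x}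
      {x | x ∈ Rec E' ∧ idx x = i} {x | x ∈ Rec E' ∧ s ≤ idx x}
      (hFcl i i hi le_rfl) (hFcl i (i + 1) hi (Nat.le_succ i)) (hAcl i hi)
      (fun x hx => by
        rcases Nat.eq_or_lt_of_le hx.2 with h | h
        · exact Or.inl ⟨hx.1, h.symm⟩
        · exact Or.inr ⟨hx.1, h⟩)
      (fun x hx h => by
        have h1 := hx.2
        have h2 := h.2
        omega)
      (hP1 i ψ) (hv0 i hi) (hvpos i hi)
      (W_mono hE ψ (hP1 s ψ)) (hv0 s le_rfl) (fun x hx => ⟨hx.1, hi.trans hx.2⟩)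
      (if i < s ∧ ∃ x, x ∈ Rec E' ∧ idx x = i then 1 else 0)
      (by
        by_cases hc : i < s ∧ ∃ x, x ∈ Rec E' ∧ idx x = i
        · rw [if_pos hc]
          refine Or.inr ⟨rfl, fun x hx h => ?_, hc.2⟩
          have h1 := hx.2
          have h2 := h.2
          omega
        · rw [if_neg hc]
          exact Or.inl rfl)
    omega
  have hsum : ∀ m, m ≤ s + 1 →
      ∑ i ∈ Finset.range m, (beta (E i) {x | x ∈ Rec E' ∧ idx x = i} +
        (if i < s ∧ ∃ x, x ∈ Rec E' ∧ idx x = i then 1 else 0)) +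
      Module.finrank ℝ (W E' ψ ⊓ suppC {x | x ∈ Rec E' ∧ m ≤ idx x} :
        Submodule ℝ (X → ℝ)) ≤
      Module.finrank ℝ (W E' ψ ⊓ suppC {x | x ∈ Rec E' ∧ 0 ≤ idx x} :
        Submodule ℝ (X → ℝ)) := by
    intro m
    induction m with
    | zero => intro _; simp
    | succ m ih =>
      intro hm
      have h1 := ih (by omega)
      have h2 := hstep m (by omega)
      rw [Finset.sum_range_succ]
      omega
  have h1 := hsum (s + 1) le_rfl
  have h2 : Module.finrank ℝ (W E' ψ ⊓ suppC {x | x ∈ Rec E' ∧ 0 ≤ idx x} :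
        Submodule ℝ (X → ℝ)) ≤ beta E' (Rec E') := by
    rw [← hψr]
    exact Submodule.finrank_mono inf_le_left
  have h3 : ((Finset.range s).filter (fun i => ∃ x, x ∈ Rec E' ∧ idx x = i)).card =
      ∑ i ∈ Finset.range (s + 1),
        (if i < s ∧ ∃ x, x ∈ Rec E' ∧ idx x = i then 1 else 0) := by
    rw [Finset.sum_range_succ, Finset.card_filter]
    simp only [lt_irrefl, false_and, if_false, add_zero]
    refine Finset.sum_congr rfl fun i hi => ?_
    have := Finset.mem_range.1 hi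
    simp [this]
  rw [h3, ← Finset.sum_add_distrib]
  omega

end Pool.Agent.CollK
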