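import Pool.Agent.CollK.Basic

/-!
Module D: upper bounds and subadditivity of `beta`; vanishing class sums on `W`.
-/

set_option maxSynthPendingDepth 3
set_option linter.unusedSectionVars false

namespace Pool.Agent.CollK

open Classical

variable {X : Type*} [Fintype X]

/-- Functions vanishing off `A`. -/
def Sup (A : Set X) : Submodule ℝ (X → ℝ) where
  carrier := {z | ∀ x ∉ A, z x = 0}
  zero_mem' := fun _ _ => rfl
  add_mem' := fun {a b} ha hb x hx => by simp [ha x hx, hb x hx]
  smul_mem' := fun c z hz x hx => by simp [hz x hx]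

lemma mem_Sup {A : Set X} {z : X → ℝ} : z ∈ Sup A ↔ ∀ x ∉ A, z x = 0 := Iff.rfl

/-- `Sup A` has dimension `A.ncard`. -/
lemma finrank_Sup (A : Set X) : Module.finrank ℝ (Sup A) = A.ncard := by
  classical
  let f : (Sup A) ≃ₗ[ℝ] (A → ℝ) :=
    { toFun := fun z x => z.1 x.1
      map_add' := fun _ _ => rfl
      map_smul' := fun _ _ => rfl
      invFun := fun g => ⟨fun x => if h : x ∈ A then g ⟨x, h⟩ else 0, fun x hx => by simp [hx]⟩
      left_inv := fun z => by
        apply Subtype.ext
        funext x
        by_cases h : x ∈ A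
        · simp [h]
        · simp [h, z.2 x h]
      right_inv := fun g => by
        funext x
        simp }
  rw [f.finrank_eq, Module.finrank_fintype_fun_eq_card, Set.ncard_eq_toFinset_card',
    Set.toFinset_card]

/-- Class sums of elements of `W E ψ` vanish if `ψ` is normalised. -/
lemma class_sum_W {E : Set (X → X)} {ψ : X → ℝ} (hψ : Norm E ψ) {w : X → X} (hw : IsMin E w)
    {y : X} (hy : y ∈ Set.range w) : ∀ z ∈ W E ψ, push w z y = 0 := by
  intro z hz
  unfold W at hz
  induction hz using Submodule.span_induction with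
  | mem z hz =>
    obtain ⟨u, hu, rfl⟩ := hz
    rw [map_sub, Pi.sub_apply, ← push_comp]
    have h1 : IsMin E (w ∘ u) := isMin_pre hw hu
    have h2 : y ∈ Set.range (w ∘ u) := by
      have h3 : Set.range (w ∘ u) = Set.range w := by
        refine Set.eq_of_subset_of_ncard_le (Set.range_comp_subset_range u w) ?_ (Set.toFinite _)
        have h4 := h1.2
        have h5 := hw.2
        unfold rk at h4 h5
        rw [h4, h5]
      rw [h3]
      exact hy
    rw [hψ _ h1 y h2, hψ w hw y hy, sub_self]
  | zero => simp
  | add x z _ _ hx hz => rw [map_add, Pi.add_apply, hx, hz, add_zero]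
  | smul c x _ hx => rw [map_smul, Pi.smul_apply, hx, smul_zero]

/-- On functions supported on a set where `w` is injective, the push-forward is transport. -/
lemma push_apply_of_injOn {w : X → X} {A : Set X} (hw : Set.InjOn w A) {z : X → ℝ}
    (hz : ∀ x ∉ A, z x = 0) {x : X} (hx : x ∈ A) : push w z (w x) = z x := by
  rw [push_apply, Finset.sum_eq_single x]
  · simp
  · intro x' _ hne
    by_cases h : w x' = w x
    · simp only [h, if_true]
      refine hz x' fun hx' => hne (hw hx' hx h)
    · simp [h]
  · simp

theorem beta_rec_add_minrk_le' (E : Set (X → X)) (ψ : X → ℝ) (hψ : IsPsi E ψ) :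
    beta E (Rec E) + minrk E ≤ (Rec E).ncard := by
  obtain ⟨w, hw⟩ := exists_isMin E
  have h1 : beta E (Rec E) ≤ Module.finrank ℝ (W E ψ) := beta_le hψ.1
  have h2 : W E ψ ≤ Sup (Rec E) := W_supp (rec_closed E) hψ.1.2
  have h3 : Sup (Set.range w) ≤ Sup (Rec E) := fun z hz x hx =>
    hz x fun h => hx (range_subset_rec hw h)
  have h4 : W E ψ ⊓ Sup (Set.range w) = ⊥ := by
    rw [eq_bot_iff]
    rintro z ⟨hz1, hz2⟩
    rw [Submodule.mem_bot]
    funext x
    by_cases hx : x ∈ Set.range w
    · rw [← push_apply_of_injOn (gen_injOn hw hw.1) hz2 hx]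
      exact class_sum_W hψ.2.1 hw ⟨x, rfl⟩ z hz1
    · exact hz2 x hx
  have h5 := Submodule.finrank_sup_add_finrank_inf_eq (W E ψ) (Sup (Set.range w))
  rw [h4, finrank_bot, add_zero, finrank_Sup] at h5
  have h6 : Module.finrank ℝ (W E ψ ⊔ Sup (Set.range w) : Submodule ℝ (X → ℝ)) ≤
      Module.finrank ℝ (Sup (Rec E)) := Submodule.finrank_mono (sup_le h2 h3)
  rw [finrank_Sup] at h6
  have h7 := hw.2
  unfold rk at h7
  omega

theorem beta_le_ncard (E : Set (X → X)) (A : Set X) (hA : Closed E A) :
    beta E A ≤ A.ncard := by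
  obtain ⟨v, hv⟩ := exists_posOn A
  refine (beta_le hv).trans ?_
  rw [← finrank_Sup A]
  exact Submodule.finrank_mono (W_supp hA hv.2)

theorem beta_union_le (E : Set (X → X)) (A B : Set X) (h : Disjoint A B) :
    beta E (A ∪ B) ≤ beta E A + beta E B := by
  obtain ⟨v, hv, h1⟩ := exists_beta E A
  obtain ⟨v', hv', h2⟩ := exists_beta E B
  have h3 : PosOn (A ∪ B) (v + v') := by
    constructor
    · rintro x (hx | hx)
      · have := hv.1 x hx
        have := hv'.nonneg x
        simp only [Pi.add_apply]
        linarith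
      · have := hv'.1 x hx
        have := hv.nonneg x
        simp only [Pi.add_apply]
        linarith
    · intro x hx
      rw [Set.mem_union, not_or] at hx
      simp [hv.2 x hx.1, hv'.2 x hx.2]
  refine (beta_le h3).trans ((Submodule.finrank_mono (W_add_le v v')).trans ?_)
  rw [← h1, ← h2]
  exact Submodule.finrank_add_le_finrank_add_finrank _ _

end Pool.Agent.CollK
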