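import Mathlib

/-!
Deficiency of semigroups of self-maps of a finite set: basic definitions.
Maps act on the right: the word `u w` is the map `w ∘ u`.
-/

set_option maxSynthPendingDepth 3

namespace Pool.Agent.CollK

open Classical

variable {X : Type*} [Fintype X]

/-- The maps generated by `E` under composition, the identity included. -/
inductive Gen (E : Set (X → X)) : (X → X) → Prop
  | one : Gen E id
  | snoc (u a : X → X) : Gen E u → a ∈ E → Gen E (a ∘ u)

/-- The rank of a map. -/
noncomputable def rk (u : X → X) : ℕ := (Set.range u).ncard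

/-- The minimal rank of a generated map. -/
noncomputable def minrk (E : Set (X → X)) : ℕ := sInf {r | ∃ u, Gen E u ∧ rk u = r}

/-- `u` is a generated map of minimal rank. -/
def IsMin (E : Set (X → X)) (u : X → X) : Prop := Gen E u ∧ rk u = minrk E

/-- The union of the images of the maps of minimal rank (the recurrent points). -/
def Rec (E : Set (X → X)) : Set X := {y | ∃ u, IsMin E u ∧ y ∈ Set.range u}

/-- `A` is mapped into itself by all maps of `E`. -/
def Closed (E : Set (X → X)) (A : Set X) : Prop := ∀ a ∈ E, ∀ x ∈ A, a x ∈ A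

/-- Push-forward of a row vector: `(push u v) y` is the sum of `v x` over `x` with `u x = y`. -/
noncomputable def push (u : X → X) : (X → ℝ) →ₗ[ℝ] (X → ℝ) where
  toFun v y := ∑ x, if u x = y then v x else 0
  map_add' v w := by
    funext y
    simp only [Pi.add_apply]
    rw [← Finset.sum_add_distrib]
    exact Finset.sum_congr rfl fun x _ => by split_ifs <;> simp
  map_smul' c v := by
    funext y
    simp only [Pi.smul_apply, smul_eq_mul, RingHom.id_apply]
    rw [Finset.mul_sum]
    exact Finset.sum_congr rfl fun x _ => by split_ifs <;> simp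

/-- Direction space of the affine hull of the orbit of `v` under the maps generated by `E`. -/
def W (E : Set (X → X)) (v : X → ℝ) : Submodule ℝ (X → ℝ) :=
  Submodule.span ℝ {z | ∃ u, Gen E u ∧ z = push u v - v}

/-- Positive on `A`, zero outside. -/
def PosOn (A : Set X) (v : X → ℝ) : Prop := (∀ x ∈ A, 0 < v x) ∧ (∀ x ∉ A, v x = 0)

/-- The least dimension of `W E v` over the vectors `v` positive exactly on `A`. -/
noncomputable def beta (E : Set (X → X)) (A : Set X) : ℕ :=
  sInf {d | ∃ v : X → ℝ, PosOn A v ∧ d = Module.finrank ℝ (W E v)}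

/-- All class sums of `v` for the kernels of the maps of minimal rank are `1`. -/
def Norm (E : Set (X → X)) (v : X → ℝ) : Prop :=
  ∀ w, IsMin E w → ∀ y ∈ Set.range w, push w v y = 1

/-- The properties of the canonical vector. -/
def IsPsi (E : Set (X → X)) (ψ : X → ℝ) : Prop :=
  PosOn (Rec E) ψ ∧ Norm E ψ ∧
  (∀ v, PosOn (Rec E) v → Module.finrank ℝ (W E ψ) ≤ Module.finrank ℝ (W E v)) ∧
  (∀ v, (∀ x, 0 ≤ v x) → Norm E v → ψ - v ∈ W E v)

/-- The affine orbit hull of `v` under `E` is invariant under `a`. -/
def Inv (E : Set (X → X)) (v : X → ℝ) (a : X → X) : Prop :=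
  push a v - v ∈ W E v ∧ ∀ z ∈ W E v, push a z ∈ W E v

end Pool.Agent.CollK
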