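import Pool.Agent.CollK.D

/-!
Module E: growth lemma and stopping criterion.
-/

set_option maxSynthPendingDepth 3
set_option linter.unusedSectionVars false

namespace Pool.Agent.CollK

open Classical

variable {X : Type*} [Fintype X]

/-- Growth lemma, given canonical vectors of `E` and of `insert a E`. -/
theorem growth' (E : Set (X → X)) (a : X → X) (ψ ψ' : X → ℝ) (hψ : IsPsi E ψ)
    (hψ' : IsPsi (insert a E) ψ')
    (hr : minrk (insert a E) = minrk E) (hY : Rec (insert a E) = Rec E)
    (hβ : beta (insert a E) (Rec E) ≤ beta E (Rec E)) : Inv E ψ a := by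
  have hsub : E ⊆ insert a E := Set.subset_insert a E
  have hN : Norm E ψ' := fun w hw y hy => hψ'.2.1 w (isMin_mono hsub hr hw) y hy
  have h1 : ψ - ψ' ∈ W E ψ' := hψ.2.2.2 ψ' hψ'.1.nonneg hN
  have h1' : ψ - ψ' ∈ W (insert a E) ψ' := W_mono hsub ψ' h1
  have h2 : W E ψ ≤ W (insert a E) ψ := W_mono hsub ψ
  have h3 : W (insert a E) ψ ≤ W (insert a E) ψ' := W_le_of_mem h1'
  have h4 : Module.finrank ℝ (W (insert a E) ψ') ≤ Module.finrank ℝ (W E ψ) := by
    obtain ⟨v, hv, hv2⟩ := exists_beta (insert a E) (Rec (insert a E))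
    have h5 := hψ'.2.2.1 v hv
    rw [hv2, hY] at h5
    exact h5.trans (hβ.trans (beta_le hψ.1))
  have h5 : W E ψ = W (insert a E) ψ' :=
    Submodule.eq_of_le_of_finrank_le (h2.trans h3) h4
  have ha : Gen (insert a E) a := gen_of_mem (Set.mem_insert a E)
  have h6 : W (insert a E) ψ = W E ψ := le_antisymm (h5 ▸ h3) h2
  constructor
  · rw [← h6]
    exact mem_W_of_gen ψ ha
  · intro z hz
    rw [← h6] at hz ⊢
    exact push_mem_W hz ha

theorem minrk_eq_of_inv (E D : Set (X → X)) (hED : E ⊆ D) (ψ : X → ℝ) (hψ : IsPsi E ψ)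
    (hinv : ∀ a ∈ D, Inv E ψ a) : minrk D = minrk E := by
  refine le_antisymm (minrk_anti hED) ?_
  have key : ∀ u, Gen D u → push u ψ - ψ ∈ W E ψ ∧ ∀ z ∈ W E ψ, push u z ∈ W E ψ := by
    intro u hu
    induction hu with
    | one => simp [push_id]
    | snoc u a _ ha ih =>
      obtain ⟨h1, h2⟩ := hinv a ha
      constructor
      · have : push (a ∘ u) ψ - ψ = push a (push u ψ - ψ) + (push a ψ - ψ) := by
          rw [push_comp, map_sub]; abel
        rw [this]
        exact Submodule.add_mem _ (h2 _ ih.1) h1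
      · intro z hz
        rw [push_comp]
        exact h2 _ (ih.2 z hz)
  obtain ⟨u, hu⟩ := exists_isMin D
  obtain ⟨w, hw⟩ := exists_isMin E
  have h1 : Set.range w ⊆ Set.range (w ∘ u) := by
    intro y hy
    have h2 : push (w ∘ u) ψ y = 1 := by
      have h3 := class_sum_W hψ.2.1 hw hy _ (key u hu.1).1
      rw [map_sub, Pi.sub_apply, ← push_comp, hψ.2.1 w hw y hy] at h3
      linarith
    by_contra hcon
    rw [push_apply, Finset.sum_eq_zero] at h2
    · exact zero_ne_one h2
    · intro x _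
      have : (w ∘ u) x ≠ y := fun h => hcon ⟨x, h⟩
      rw [if_neg this]
  have h2 : rk w ≤ rk (w ∘ u) := Set.ncard_le_ncard h1 (Set.toFinite _)
  rw [← hw.2, ← hu.2]
  exact h2.trans (rk_comp_le_left u w)

end Pool.Agent.CollK
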