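import Pool.Agent.CollK.C
import Pool.Agent.CollK.E

/-!
Module F: the generation theorem.
-/

set_option maxSynthPendingDepth 3
set_option linter.unusedSectionVars false

namespace Pool.Agent.CollK

open Classical

variable {X : Type*} [Fintype X]

/-- The last index `i ≤ s` such that `x` is recurrent for `E i`. -/
noncomputable def idx (E : ℕ → Set (X → X)) (s : ℕ) (x : X) : ℕ :=
  Nat.findGreatest (fun i => x ∈ Rec (E i)) s

/-- The potential. -/
noncomputable def Phi (E : ℕ → Set (X → X)) (s : ℕ) : ℕ :=
  (Fintype.card X - minrk (E s)) +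
    ∑ i ∈ Finset.range (s + 1), beta (E i) {x | idx E s x = i}

lemma idx_le (E : ℕ → Set (X → X)) (s : ℕ) (x : X) : idx E s x ≤ s := Nat.findGreatest_le s

lemma idx_spec (E : ℕ → Set (X → X)) (h0 : E 0 = ∅) (s : ℕ) (x : X) :
    x ∈ Rec (E (idx E s x)) := by
  have h : x ∈ Rec (E 0) := by rw [h0, rec_empty]; trivial
  exact Nat.findGreatest_spec (P := fun i => x ∈ Rec (E i)) (Nat.zero_le s) h

lemma le_idx (E : ℕ → Set (X → X)) (s : ℕ) (x : X) {i : ℕ} (hi : i ≤ s)
    (hx : x ∈ Rec (E i)) : i ≤ idx E s x :=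
  Nat.le_findGreatest hi hx

lemma idx_succ (E : ℕ → Set (X → X)) (s : ℕ) (x : X) :
    idx E (s + 1) x = if x ∈ Rec (E (s + 1)) then s + 1 else idx E s x :=
  Nat.findGreatest_succ s

lemma idx_congr {E E' : ℕ → Set (X → X)} {s : ℕ} (h : ∀ i ≤ s, E' i = E i) (x : X) :
    idx E' s x = idx E s x := by
  induction s with
  | zero => simp [idx]
  | succ s ih => rw [idx_succ, idx_succ, h (s + 1) le_rfl, ih (fun i hi => h i (by omega))]

lemma Phi_congr {E E' : ℕ → Set (X → X)} {s : ℕ} (h : ∀ i ≤ s, E' i = E i) :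
    Phi E' s = Phi E s := by
  unfold Phi
  rw [h s le_rfl]
  congr 1
  refine Finset.sum_congr rfl fun i hi => ?_
  rw [h i (by rw [Finset.mem_range] at hi; omega)]
  congr 1
  ext x
  simp only [Set.mem_ofPred_eq, idx_congr h x]

lemma closed_idx (E : ℕ → Set (X → X)) (h0 : E 0 = ∅) (hmono : ∀ i j, i ≤ j → E i ⊆ E j)
    (s i : ℕ) : Closed (E i) {x | idx E s x = i} := by
  intro a ha x hx
  rw [Set.mem_ofPred_eq] at hx ⊢
  have hi : i ≤ s := hx ▸ idx_le E s x
  have h1 : x ∈ Rec (E i) := by have := idx_spec E h0 s x; rwa [hx] at this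
  have h2 : a x ∈ Rec (E i) := rec_closed _ a ha x h1
  have h3 := le_idx E s (a x) hi h2
  by_contra hne
  have h4 : i < idx E s (a x) := lt_of_le_of_ne h3 (Ne.symm hne)
  obtain ⟨r, hr, hrx⟩ := rec_return (gen_of_mem ha) h1
  have h5 := idx_spec E h0 s (a x)
  have h6 : x ∈ Rec (E (idx E s (a x))) := by
    have := rec_gen (gen_mono (hmono _ _ h3) hr) h5
    rwa [hrx] at this
  have h7 := le_idx E s x (idx_le E s (a x)) h6
  omega

lemma minrk_le_card (E : Set (X → X)) : minrk E ≤ Fintype.card X := by
  have := minrk_anti (Set.empty_subset E)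
  rwa [minrk_empty] at this

lemma idx_eq_top (E : ℕ → Set (X → X)) (h0 : E 0 = ∅) (s : ℕ) :
    {x | idx E s x = s} = Rec (E s) := by
  ext x
  rw [Set.mem_ofPred_eq]
  constructor
  · intro h
    have := idx_spec E h0 s x
    rwa [h] at this
  · intro h
    exact le_antisymm (idx_le E s x) (le_idx E s x le_rfl h)

lemma Phi_le (E : ℕ → Set (X → X)) (h0 : E 0 = ∅) (hmono : ∀ i j, i ≤ j → E i ⊆ E j) (s : ℕ)
    (ψ : X → ℝ) (hψ : IsPsi (E s) ψ) :
    Phi E s ≤ 2 * (Fintype.card X - minrk (E s)) := by
  unfold Phi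
  rw [Finset.sum_range_succ, idx_eq_top E h0]
  have h1 := beta_rec_add_minrk_le' (E s) ψ hψ
  have h2 : ∑ i ∈ Finset.range s, beta (E i) {x | idx E s x = i} ≤
      ∑ i ∈ Finset.range s, ({x | idx E s x = i} : Set X).ncard :=
    Finset.sum_le_sum fun i _ => beta_le_ncard _ _ (closed_idx E h0 hmono s i)
  have h3 : ∑ i ∈ Finset.range (s + 1), ({x | idx E s x = i} : Set X).ncard =
      Fintype.card X := by
    have h4 : ∀ i, ({x | idx E s x = i} : Set X).ncard =
        (Finset.univ.filter (fun x => idx E s x = i)).card := by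
      intro i
      rw [← Set.ncard_coe_finset]
      congr 1
      ext x
      simp
    simp_rw [h4]
    rw [← Finset.card_univ]
    exact (Finset.card_eq_sum_card_fiberwise (f := idx E s) (s := Finset.univ)
      (t := Finset.range (s + 1)) (fun x _ => by
        simp only [Finset.coe_range, Set.mem_Iio]
        have := idx_le E s x
        omega)).symm
  rw [Finset.sum_range_succ, idx_eq_top E h0] at h3
  have h5 := minrk_le_card (E s)
  omega

lemma Phi_step (E : ℕ → Set (X → X)) (h0 : E 0 = ∅) (hmono : ∀ i j, i ≤ j → E i ⊆ E j) (s : ℕ)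
    (a : X → X) (hs : E (s + 1) = insert a (E s)) (ψ ψ' : X → ℝ) (hψ : IsPsi (E s) ψ)
    (hψ' : IsPsi (insert a (E s)) ψ') (hna : ¬ Inv (E s) ψ a) :
    Phi E s + 1 ≤ Phi E (s + 1) := by
  have hm := minrk_anti (hmono s (s + 1) (by omega))
  have hmn := minrk_le_card (E s)
  -- the sets of the new index
  have htop := idx_eq_top E h0 (s + 1)
  have hlow : ∀ i ∈ Finset.range (s + 1), ({x | idx E (s + 1) x = i} : Set X) =
      {x | x ∉ Rec (E (s + 1)) ∧ idx E s x = i} := by
    intro i hi
    rw [Finset.mem_range] at hi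
    ext x
    simp only [Set.mem_ofPred_eq, idx_succ]
    by_cases hx : x ∈ Rec (E (s + 1))
    · simp only [hx, if_true, not_true_eq_false, false_and, iff_false]
      omega
    · simp [hx]
  have hPhi : Phi E (s + 1) = (Fintype.card X - minrk (E (s + 1))) +
      (∑ i ∈ Finset.range (s + 1), beta (E i) {x | x ∉ Rec (E (s + 1)) ∧ idx E s x = i} +
        beta (E (s + 1)) (Rec (E (s + 1)))) := by
    unfold Phi
    rw [Finset.sum_range_succ, htop]
    congr 2
    exact Finset.sum_congr rfl fun i hi => by rw [hlow i hi]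
  have hchain := beta_chain E s (fun i j hij _ => hmono i j hij) (E (s + 1))
    (hmono s (s + 1) (by omega)) (idx E s) (idx_le E s) (idx_spec E h0 s)
    (fun x i hi hx => le_idx E s x hi hx)
  have hsplit : ∑ i ∈ Finset.range (s + 1), beta (E i) {x | idx E s x = i} ≤
      ∑ i ∈ Finset.range (s + 1), beta (E i) {x | x ∈ Rec (E (s + 1)) ∧ idx E s x = i} +
      ∑ i ∈ Finset.range (s + 1), beta (E i) {x | x ∉ Rec (E (s + 1)) ∧ idx E s x = i} := by
    rw [← Finset.sum_add_distrib]
    refine Finset.sum_le_sum fun i _ => ?_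
    have h1 : ({x | idx E s x = i} : Set X) = {x | x ∈ Rec (E (s + 1)) ∧ idx E s x = i} ∪
        {x | x ∉ Rec (E (s + 1)) ∧ idx E s x = i} := by
      ext x
      simp only [Set.mem_ofPred_eq, Set.mem_union]
      tauto
    have h2 := beta_union_le (E i) {x | x ∈ Rec (E (s + 1)) ∧ idx E s x = i}
      {x | x ∉ Rec (E (s + 1)) ∧ idx E s x = i}
      (Set.disjoint_left.2 fun x hx hx' => hx'.1 hx.1)
    rw [← h1] at h2
    exact h2
  have hPhis : Phi E s = (Fintype.card X - minrk (E s)) +
      ∑ i ∈ Finset.range (s + 1), beta (E i) {x | idx E s x = i} := rfl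
  by_cases hlt : minrk (E (s + 1)) < minrk (E s)
  · omega
  have heq : minrk (E (s + 1)) = minrk (E s) := by omega
  have hrec := rec_mono (hmono s (s + 1) (by omega)) heq
  by_cases hex : ∃ x, x ∈ Rec (E (s + 1)) ∧ x ∉ Rec (E s)
  · obtain ⟨x, hx, hx'⟩ := hex
    have h1 : idx E s x < s := by
      refine lt_of_le_of_ne (idx_le E s x) fun h => hx' ?_
      have := idx_spec E h0 s x
      rwa [h] at this
    have h2 : 0 < ((Finset.range s).filter
        (fun i => ∃ x, x ∈ Rec (E (s + 1)) ∧ idx E s x = i)).card := by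
      rw [Finset.card_pos]
      exact ⟨idx E s x, by simp only [Finset.mem_filter, Finset.mem_range]; exact ⟨h1, x, hx, rfl⟩⟩
    omega
  · push Not at hex
    have hYeq : Rec (E (s + 1)) = Rec (E s) := Set.Subset.antisymm hex hrec
    have hg : beta (E s) (Rec (E s)) < beta (E (s + 1)) (Rec (E (s + 1))) := by
      by_contra hcon
      push Not at hcon
      rw [hYeq, hs] at hcon
      rw [hs] at heq hYeq
      exact hna (growth' (E s) a ψ ψ' hψ hψ' heq hYeq hcon)
    have h1 : ∑ i ∈ Finset.range s, beta (E i) {x | x ∉ Rec (E (s + 1)) ∧ idx E s x = i} =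
        ∑ i ∈ Finset.range s, beta (E i) {x | idx E s x = i} := by
      refine Finset.sum_congr rfl fun i hi => ?_
      rw [Finset.mem_range] at hi
      congr 1
      ext x
      simp only [Set.mem_ofPred_eq, and_iff_right_iff_imp]
      intro hx hx'
      rw [hYeq] at hx'
      have := le_idx E s x le_rfl hx'
      omega
    rw [Finset.sum_range_succ, idx_eq_top E h0] at hPhis
    rw [Finset.sum_range_succ, h1] at hPhi
    omega

theorem exists_small_subset' (D : Set (X → X)) (k : ℕ) (hk : 1 ≤ k)
    (hD : minrk D + k ≤ Fintype.card X) :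
    ∃ E : Finset (X → X), (E : Set (X → X)) ⊆ D ∧ E.card ≤ 2 * k - 1 ∧
      minrk (E : Set (X → X)) + k ≤ Fintype.card X := by
  have main : ∀ s : ℕ, (∃ E : Finset (X → X), (E : Set (X → X)) ⊆ D ∧ E.card ≤ s ∧
      minrk (E : Set (X → X)) + k ≤ Fintype.card X) ∨
      ∃ E : ℕ → Set (X → X), E 0 = ∅ ∧ (∀ i j, i ≤ j → E i ⊆ E j) ∧ (∀ i, E i ⊆ D) ∧
        (∀ i, (E i).ncard ≤ i) ∧ s ≤ Phi E s := by
    intro s
    induction s with
    | zero =>
      right
      exact ⟨fun _ => ∅, rfl, fun _ _ _ => le_rfl, fun _ => Set.empty_subset _,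
        fun _ => by simp, Nat.zero_le _⟩
    | succ s ih =>
      rcases ih with ⟨E, h1, h2, h3⟩ | ⟨E, h0, hmono, hsub, hcard, hPhi⟩
      · exact Or.inl ⟨E, h1, by omega, h3⟩
      · by_cases hdone : minrk (E s) + k ≤ Fintype.card X
        · left
          refine ⟨(Set.toFinite (E s)).toFinset, ?_, ?_, ?_⟩
          · rw [Set.Finite.coe_toFinset]
            exact hsub s
          rotate_left
          · rw [Set.Finite.coe_toFinset]
            exact hdone
          have := hcard s
          rw [Set.ncard_eq_toFinset_card _ (Set.toFinite (E s))] at this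
          omega
        · right
          obtain ⟨ψ, hψ⟩ := exists_psi (E s)
          have hex : ∃ a ∈ D, ¬ Inv (E s) ψ a := by
            by_contra hcon
            push Not at hcon
            have := minrk_eq_of_inv (E s) D (hsub s) ψ hψ hcon
            omega
          obtain ⟨a, haD, hna⟩ := hex
          obtain ⟨ψ', hψ'⟩ := exists_psi (insert a (E s))
          let E' : ℕ → Set (X → X) := fun i => if i ≤ s then E i else insert a (E s)
          have e1 : ∀ i ≤ s, E' i = E i := fun i hi => by simp [E', hi]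
          have e2 : ∀ i, s < i → E' i = insert a (E s) := fun i hi => by
            simp [E', not_le.2 hi]
          have hmono' : ∀ i j, i ≤ j → E' i ⊆ E' j := by
            intro i j hij
            by_cases hj : j ≤ s
            · rw [e1 j hj, e1 i (hij.trans hj)]
              exact hmono i j hij
            · push Not at hj
              rw [e2 j hj]
              by_cases hi : i ≤ s
              · rw [e1 i hi]
                exact (hmono i s hi).trans (Set.subset_insert _ _)
              · rw [e2 i (not_le.1 hi)]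
          refine ⟨E', by rw [e1 0 (Nat.zero_le s), h0], hmono', ?_, ?_, ?_⟩
          · intro i
            by_cases hi : i ≤ s
            · rw [e1 i hi]; exact hsub i
            · rw [e2 i (not_le.1 hi)]
              exact Set.insert_subset haD (hsub s)
          · intro i
            by_cases hi : i ≤ s
            · rw [e1 i hi]; exact hcard i
            · rw [e2 i (not_le.1 hi)]
              have := Set.ncard_insert_le a (E s)
              have := hcard s
              omega
          · have hE's : E' s = E s := e1 s le_rfl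
            have hstep := Phi_step E' (by rw [e1 0 (Nat.zero_le s), h0]) hmono' s a
              (by rw [e2 (s + 1) (by omega), hE's]) ψ ψ' (by rw [hE's]; exact hψ)
              (by rw [hE's]; exact hψ') (by rw [hE's]; exact hna)
            rw [Phi_congr e1] at hstep
            omega
  rcases main (2 * k - 1) with h | ⟨E, h0, hmono, hsub, hcard, hPhi⟩
  · exact h
  · obtain ⟨ψ, hψ⟩ := exists_psi (E (2 * k - 1))
    have h1 := Phi_le E h0 hmono (2 * k - 1) ψ hψ
    have h2 := minrk_le_card (E (2 * k - 1))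
    refine ⟨(Set.toFinite (E (2 * k - 1))).toFinset, ?_, ?_, ?_⟩
    · rw [Set.Finite.coe_toFinset]
      exact hsub _
    · have := hcard (2 * k - 1)
      rwa [Set.ncard_eq_toFinset_card _ (Set.toFinite (E (2 * k - 1)))] at this
    · rw [Set.Finite.coe_toFinset]
      omega

end Pool.Agent.CollK
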