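import Pool.Agent.CollK.Basic
import Pool.Agent.Collapse.Defs

/-!
Module G: collapsing words exist over every finite alphabet.
-/

set_option maxSynthPendingDepth 3
set_option linter.unusedSectionVars false

namespace Pool.Agent.CollK

open Classical
open Pool.Agent.Collapse

namespace ModG

variable {X : Type*} [Fintype X]

/-- The indicator of the image of `u`. -/
noncomputable def ind (u : X → X) : X → ℝ := fun x => if x ∈ Set.range u then 1 else 0

lemma push_single (u : X → X) (x : X) :
    push u (Pi.single x (1 : ℝ)) = Pi.single (u x) (1 : ℝ) := by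
  funext y
  rw [push_apply]
  rw [Finset.sum_eq_single x]
  · by_cases h : u x = y
    · subst h; simp
    · simp [h, Pi.single_apply, Ne.symm h]
  · intro z _ hz
    simp [Pi.single_apply, hz]
  · intro h; exact absurd (Finset.mem_univ x) h

/-- The rank of the linear map `push u` is at least the rank of `u`. -/
lemma rk_le_finrank_range (u : X → X) :
    rk u ≤ Module.finrank ℝ (LinearMap.range (push u)) := by
  have hli : LinearIndependent ℝ (fun x : X => (Pi.single x (1 : ℝ) : X → ℝ)) := by
    have := (Pi.basisFun ℝ X).linearIndependent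
    convert this using 1
    funext x
    simp
  have hli2 : LinearIndependent ℝ
      (fun x : (Set.range u) => (⟨Pi.single x.1 (1 : ℝ), by
        obtain ⟨y, hy⟩ := x.2
        exact ⟨Pi.single y 1, by rw [push_single, hy]⟩⟩ : LinearMap.range (push u))) := by
    apply LinearIndependent.of_comp (LinearMap.range (push u)).subtype
    exact hli.comp (fun x : Set.range u => x.1) Subtype.val_injective
  have := hli2.fintype_card_le_finrank
  unfold rk
  rwa [← Nat.card_coe_set_eq, Nat.card_eq_fintype_card]

lemma finrank_ker_le (u : X → X) :
    Module.finrank ℝ (LinearMap.ker (push u)) + rk u ≤ Fintype.card X := by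
  have h := LinearMap.finrank_range_add_finrank_ker (push u)
  rw [Module.finrank_fintype_fun_eq_card] at h
  have := rk_le_finrank_range u
  omega

/-- If `u ∘ g ∘ u` has the same rank as `u`, then the class sums of the image of `u` under `g`
are all one. -/
lemma push_ind_eq (u g : X → X) (h : rk (u ∘ g ∘ u) = rk u) :
    push u (push g (ind u)) = ind u := by
  have h1 : (fun x => u (g x)) '' Set.range u = Set.range u := by
    refine Set.eq_of_subset_of_ncard_le ?_ ?_ (Set.toFinite _)
    · rintro _ ⟨x, _, rfl⟩
      exact ⟨g x, rfl⟩
    · have : Set.range (u ∘ g ∘ u) = (fun x => u (g x)) '' Set.range u := by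
        rw [← Set.range_comp]; rfl
      unfold rk at h
      rw [← this, h]
  have h2 : Set.InjOn (fun x => u (g x)) (Set.range u) := by
    apply Set.injOn_of_ncard_image_eq _ (Set.toFinite _)
    rw [h1]
  rw [← push_comp]
  funext y
  rw [push_apply]
  by_cases hy : y ∈ Set.range u
  · have hy' := hy
    rw [← h1] at hy'
    obtain ⟨x, hx, hxy⟩ := hy'
    rw [Finset.sum_eq_single x]
    · simp only [ind, Function.comp]
      simp only at hxy
      rw [if_pos hxy, if_pos hx, if_pos hy]
    · intro z _ hz
      by_cases hzy : (u ∘ g) z = y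
      · rw [if_pos hzy]
        unfold ind
        rw [if_neg]
        intro hzr
        apply hz
        apply h2 hzr hx
        simp only
        simp only at hxy
        rw [hxy]
        exact hzy
      · rw [if_neg hzy]
    · intro h; exact absurd (Finset.mem_univ x) h
  · rw [Finset.sum_eq_zero]
    · unfold ind; rw [if_neg hy]
    · intro z _
      rw [if_neg]
      rintro rfl
      exact hy ⟨g z, rfl⟩

variable {A : Type*}

/-- The span of the differences for words of length at most `i`. -/
noncomputable def U (φ : A → X → X) (s : X → ℝ) (i : ℕ) : Submodule ℝ (X → ℝ) :=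
  Submodule.span ℝ {z | ∃ v : List A, v.length ≤ i ∧ z = push (act φ v) s - s}

lemma U_mono (φ : A → X → X) (s : X → ℝ) (i : ℕ) : U φ s i ≤ U φ s (i + 1) := by
  refine Submodule.span_mono ?_
  rintro z ⟨v, hv, rfl⟩
  exact ⟨v, by omega, rfl⟩

lemma push_mem_U (φ : A → X → X) (s : X → ℝ) (i : ℕ) (a : A) {z : X → ℝ} (hz : z ∈ U φ s i) :
    push (φ a) z ∈ U φ s (i + 1) := by
  unfold U at hz
  induction hz using Submodule.span_induction with
  | mem z hz =>
    obtain ⟨v, hv, rfl⟩ := hz
    have h1 : push (act φ (v ++ [a])) s - s ∈ U φ s (i + 1) :=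
      Submodule.subset_span ⟨v ++ [a], by simp; omega, rfl⟩
    have h2 : push (act φ [a]) s - s ∈ U φ s (i + 1) :=
      Submodule.subset_span ⟨[a], by simp, rfl⟩
    have e1 : act φ (v ++ [a]) = φ a ∘ act φ v := by
      funext x; rw [act_append]; rfl
    have e2 : act φ [a] = φ a := by
      funext x; rfl
    rw [e1, push_comp] at h1
    rw [e2] at h2
    have : push (φ a) (push (act φ v) s - s) =
        (push (φ a) (push (act φ v) s) - s) - (push (φ a) s - s) := by
      rw [map_sub]; abel
    rw [this]
    exact Submodule.sub_mem _ h1 h2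
  | zero => simp
  | add x y _ _ hx hy => rw [map_add]; exact Submodule.add_mem _ hx hy
  | smul c x _ hx => rw [map_smul]; exact Submodule.smul_mem _ _ hx

lemma all_mem_U (φ : A → X → X) (s : X → ℝ) (i : ℕ) (h : U φ s (i + 1) = U φ s i)
    (v : List A) : push (act φ v) s - s ∈ U φ s i := by
  induction v using List.reverseRecOn with
  | nil => 
    have e : act φ ([] : List A) = (id : X → X) := by funext x; rfl
    rw [e, push_id]
    simp
  | append_singleton v a ih =>
    have e1 : act φ (v ++ [a]) = φ a ∘ act φ v := by
      funext x; rw [act_append]; rfl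
    have e2 : act φ [a] = φ a := by
      funext x; rfl
    have h1 := push_mem_U φ s i a ih
    have h2 : push (act φ [a]) s - s ∈ U φ s (i + 1) :=
      Submodule.subset_span ⟨[a], by simp, rfl⟩
    rw [e2] at h2
    rw [h] at h1 h2
    rw [e1, push_comp]
    have : push (φ a) (push (act φ v) s) - s =
        push (φ a) (push (act φ v) s - s) + (push (φ a) s - s) := by
      rw [map_sub]; abel
    rw [this]
    exact Submodule.add_mem _ h1 h2

/-- The key lemma: if the rank of `u` is `n - k` and `u ∘ g ∘ u` has this rank for all words
`g` of length at most `k + 1`, then no word has smaller rank. -/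
lemma key (φ : A → X → X) (u : X → X) (k : ℕ) (hu : Fintype.card X ≤ rk u + k)
    (h : ∀ v : List A, v.length ≤ k + 1 → rk (u ∘ act φ v ∘ u) = rk u) (v : List A) :
    rk u ≤ rk (act φ v) := by
  set s := ind u with hs
  have hnil : push u s = s := by
    have h0 := h [] (by simp)
    have e : act φ ([] : List A) = (id : X → X) := by funext x; rfl
    have := push_ind_eq u _ h0
    rw [e, push_id] at this
    exact this
  have hker : ∀ i ≤ k + 1, U φ s i ≤ LinearMap.ker (push u) := by
    intro i hi
    refine Submodule.span_le.2 ?_
    rintro z ⟨v, hv, rfl⟩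
    rw [SetLike.mem_coe, LinearMap.mem_ker, map_sub, push_ind_eq u _ (h v (by omega)), hnil,
      ← hs, sub_self]
  have hfr : Module.finrank ℝ (LinearMap.ker (push u)) ≤ k := by
    have := finrank_ker_le u
    omega
  have hex : ∃ i ≤ k, U φ s (i + 1) = U φ s i := by
    by_contra hcon
    push Not at hcon
    have hlt : ∀ i ≤ k, U φ s i < U φ s (i + 1) := fun i hi =>
      lt_of_le_of_ne (U_mono φ s i) (Ne.symm (hcon i hi))
    have hge : ∀ i, i ≤ k + 1 → i ≤ Module.finrank ℝ (U φ s i) := by
      intro i
      induction i with
      | zero => intro _; exact Nat.zero_le _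
      | succ i ih =>
        intro hi
        have := Submodule.finrank_lt_finrank_of_lt (hlt i (by omega))
        have := ih (by omega)
        omega
    have h1 := hge (k + 1) le_rfl
    have h2 := Submodule.finrank_mono (hker (k + 1) le_rfl)
    omega
  obtain ⟨i, hi, heq⟩ := hex
  have hv := hker i (by omega) (all_mem_U φ s i heq v)
  rw [LinearMap.mem_ker, map_sub, hnil, sub_eq_zero] at hv
  have hsub : Set.range u ⊆ Set.range (u ∘ act φ v) := by
    intro y hy
    by_contra hn
    have h1 : push u (push (act φ v) s) y = 0 := by
      rw [← push_comp]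
      refine push_supp (A := Set.univ) (B := Set.range (u ∘ act φ v)) ?_ ?_ y hn
      · intro x _; exact ⟨x, rfl⟩
      · intro x hx; exact absurd (Set.mem_univ x) hx
    rw [hv] at h1
    simp only [hs, ind, if_pos hy] at h1
    exact one_ne_zero h1
  have h3 : rk u ≤ rk (u ∘ act φ v) := Set.ncard_le_ncard hsub (Set.toFinite _)
  exact h3.trans (rk_comp_le_left _ _)

lemma infix_flatMap (z : List A) (L : List (List A)) (v : List A) (hv : v ∈ L) :
    z ++ v ++ z <:+: z ++ L.flatMap (fun v => v ++ z) := by
  induction L with
  | nil => simp at hv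
  | cons v0 L ih =>
    rw [List.flatMap_cons]
    rcases List.mem_cons.1 hv with rfl | hv
    · refine ⟨[], L.flatMap (fun v => v ++ z), ?_⟩
      simp [List.append_assoc]
    · obtain ⟨p, q, hpq⟩ := ih hv
      refine ⟨z ++ v0 ++ p, q, ?_⟩
      have : z ++ (v0 ++ z ++ L.flatMap (fun v => v ++ z)) =
          z ++ v0 ++ (z ++ L.flatMap (fun v => v ++ z)) := by
        simp [List.append_assoc]
      rw [this, ← hpq]
      simp [List.append_assoc]

end ModG

open ModG in
theorem exists_collapsing (k m : ℕ) (hm : 1 ≤ m) : ∃ w : List (Fin m), IsCollapsing k w := by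
  induction k with
  | zero => exact ⟨[⟨0, hm⟩], by simp, fun X _ φ _ => Nat.zero_le _⟩
  | succ k ih =>
    obtain ⟨z, hz⟩ := ih
    set L : List (List (Fin m)) := (List.finite_length_le (Fin m) (k + 1)).toFinset.toList
      with hL
    have hmem : ∀ v : List (Fin m), v.length ≤ k + 1 → v ∈ L := by
      intro v hv
      rw [hL, Finset.mem_toList, Set.Finite.mem_toFinset]
      exact hv
    refine ⟨z ++ L.flatMap (fun v => v ++ z), ?_, ?_⟩
    · intro h
      exact hz.1 (List.append_eq_nil_iff.1 h).1
    · intro X hX φ ⟨vs, hvs, hdf⟩
      letI : Fintype X := Fintype.ofFinite X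
      by_contra hcon
      have h1 : k ≤ df (act φ z) := hz.2 X φ ⟨vs, hvs, by omega⟩
      have hz1 : z <:+: z ++ L.flatMap (fun v => v ++ z) := ⟨[], L.flatMap (fun v => v ++ z), by simp⟩
      have h2 := df_infix φ hz1
      have hcard : ∀ u : X → X, rk u ≤ Fintype.card X := by
        intro u
        unfold rk
        have := Set.ncard_le_ncard (Set.subset_univ (Set.range u)) (Set.toFinite _)
        rwa [Set.ncard_univ, Nat.card_eq_fintype_card] at this
      have hdfe : ∀ u : X → X, df u = Fintype.card X - rk u := by
        intro u
        unfold df rk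
        rw [Nat.card_eq_fintype_card]
      have hkey := key φ (act φ z) k (by
        have := hdfe (act φ z)
        have := hcard (act φ z)
        omega) (by
        intro v hv
        have h3 := df_infix φ (infix_flatMap z L v (hmem v hv))
        have h4 : z <:+: z ++ v ++ z := ⟨[], v ++ z, by simp [List.append_assoc]⟩
        have h5 := df_infix φ h4
        have e : act φ (z ++ v ++ z) = act φ z ∘ act φ v ∘ act φ z := by
          funext x
          simp [act_append]
        rw [e] at h3 h5
        have := hdfe (act φ z)
        have := hdfe (act φ z ∘ act φ v ∘ act φ z)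
        have := hcard (act φ z)
        have := hcard (act φ z ∘ act φ v ∘ act φ z)
        omega) vs
      have := hdfe (act φ z)
      have := hdfe (act φ vs)
      have := hcard (act φ z)
      have := hcard (act φ vs)
      omega

end Pool.Agent.CollK
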