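import Pool.Agent.CollK.F
import Pool.Agent.CollK.G

/-!
Module H: the bound on the minimum length of `k`-collapsing words.
-/

set_option maxSynthPendingDepth 3
set_option linter.unusedSectionVars false

namespace Pool.Agent.CollK

open Pool.Agent.Collapse

lemma gen_act {A X : Type*} (φ : A → X → X) (D : Set (X → X)) (hD : ∀ a, φ a ∈ D)
    (v : List A) : Gen D (act φ v) := by
  induction v using List.reverseRecOn with
  | nil => exact Gen.one
  | append_singleton v a ih =>
    have : act φ (v ++ [a]) = φ a ∘ act φ v := by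
      funext x; rw [act_append]; rfl
    rw [this]
    exact Gen.snoc _ _ ih (hD a)

lemma exists_act {A X : Type*} (φ : A → X → X) (E : Set (X → X)) (hE : ∀ e ∈ E, ∃ a, φ a = e)
    {u : X → X} (hu : Gen E u) : ∃ v : List A, act φ v = u := by
  induction hu with
  | one => exact ⟨[], rfl⟩
  | snoc u e _ he ih =>
    obtain ⟨v, rfl⟩ := ih
    obtain ⟨a, rfl⟩ := hE e he
    exact ⟨v ++ [a], by funext x; rw [act_append]; rfl⟩

lemma act_map {A B X : Type*} (φ : A → X → X) (ρ : B → A) (v : List B) :
    act φ (v.map ρ) = act (fun b => φ (ρ b)) v := by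
  funext x
  unfold act
  rw [List.foldl_map]

lemma rk_le_card {X : Type*} [Fintype X] (u : X → X) : rk u ≤ Fintype.card X := by
  unfold rk
  have := Set.ncard_le_ncard (Set.subset_univ (Set.range u)) (Set.toFinite _)
  rwa [Set.ncard_univ, Nat.card_eq_fintype_card] at this

lemma le_df_iff {X : Type*} [Fintype X] (u : X → X) (k : ℕ) (hk : 1 ≤ k) :
    k ≤ df u ↔ rk u + k ≤ Fintype.card X := by
  have h := rk_le_card u
  unfold df
  unfold rk at h ⊢
  rw [Nat.card_eq_fintype_card]
  omega

/-- The key step: a word collapsing over `2k-1` letters, substituted in all possible ways. -/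
lemma subst_collapsing (k : ℕ) (hk : 1 ≤ k) (W0 : List (Fin (2 * k - 1)))
    (hW0 : IsCollapsing k W0) (t : ℕ) (ht : 1 ≤ t) :
    IsCollapsing k ((Finset.univ : Finset (Fin (2 * k - 1) → Fin t)).toList.flatMap
      (fun ρ => W0.map ρ)) := by
  classical
  constructor
  · obtain ⟨a, W1, hW⟩ := List.exists_cons_of_ne_nil hW0.1
    intro h
    rw [List.flatMap_eq_nil_iff] at h
    have := h (fun _ => ⟨0, by omega⟩) (by simp)
    rw [hW] at this
    simp at this
  · intro X hX φ ⟨v, hv, hdf⟩
    letI : Fintype X := Fintype.ofFinite X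
    set D : Set (X → X) := Set.range φ with hD
    have h1 : Gen D (act φ v) := gen_act φ D (fun a => ⟨a, rfl⟩) v
    have h2 : minrk D + k ≤ Fintype.card X := by
      have := (le_df_iff _ k hk).1 hdf
      have h3 := minrk_le h1
      omega
    obtain ⟨E, hED, hcard, hE⟩ := exists_small_subset' D k hk h2
    -- the letters
    have hne : 0 < E.card := by
      rw [Finset.card_pos]
      rw [Finset.nonempty_iff_ne_empty]
      rintro rfl
      rw [Finset.coe_empty, minrk_empty] at hE
      omega
    have hch : ∀ e : E, ∃ a, φ a = e.1 := fun e => hED e.2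
    choose f hf using hch
    let eq := E.equivFin
    let ρ : Fin (2 * k - 1) → Fin t := fun i =>
      if h : i.val < E.card then f (eq.symm ⟨i.val, h⟩) else f (eq.symm ⟨0, hne⟩)
    have hρ : ∀ e ∈ (E : Set (X → X)), ∃ i, φ (ρ i) = e := by
      intro e he
      have hlt : (eq ⟨e, he⟩).val < E.card := (eq ⟨e, he⟩).2
      refine ⟨⟨(eq ⟨e, he⟩).val, by omega⟩, ?_⟩
      simp only [ρ, hlt, dif_pos]
      rw [hf]
      simp
    obtain ⟨u, hu⟩ := exists_isMin (E : Set (X → X))
    obtain ⟨v', hv'⟩ := exists_act (fun i => φ (ρ i)) (E : Set (X → X)) hρ hu.1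
    have hdf' : k ≤ df (act (fun i => φ (ρ i)) v') := by
      rw [le_df_iff _ k hk, hv', hu.2]
      exact hE
    have hv'ne : v' ≠ [] := by
      rintro rfl
      have : rk u = Fintype.card X := by
        rw [← hv']
        have : (act (fun i => φ (ρ i)) [] : X → X) = id := rfl
        rw [this]
        unfold rk
        rw [Set.range_id, Set.ncard_univ, Nat.card_eq_fintype_card]
      rw [hu.2] at this
      omega
    have h3 := hW0.2 X (fun i => φ (ρ i)) ⟨v', hv'ne, hdf'⟩
    rw [← act_map] at h3
    refine h3.trans (df_infix φ ?_)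
    rw [List.flatMap_def]
    exact List.infix_of_mem_flatten (List.mem_map.2 ⟨ρ, by simp, rfl⟩)

theorem mu_bound (k : ℕ) (hk : 1 ≤ k) : ∃ C : ℕ, ∀ t : ℕ, 1 ≤ t →
    (∃ w : List (Fin t), IsCollapsing k w) ∧ mu k t ≤ C * t ^ (2 * k - 1) := by
  obtain ⟨W0, hW0⟩ := exists_collapsing k (2 * k - 1) (by omega)
  refine ⟨W0.length, fun t ht => ?_⟩
  have h := subst_collapsing k hk W0 hW0 t ht
  refine ⟨⟨_, h⟩, ?_⟩
  refine (Nat.sInf_le ⟨_, h, rfl⟩ : mu k t ≤ _).trans ?_
  rw [List.length_flatMap]
  simp only [List.length_map]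
  rw [List.map_const', List.sum_replicate, smul_eq_mul, Finset.length_toList, Finset.card_univ,
    Fintype.card_fun, Fintype.card_fin, Fintype.card_fin, mul_comm]

end Pool.Agent.CollK
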